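import Pool.Agent.Lib.MP_bb9e9d_lc.Abs.Defs

/-! # From configurations to cardinals -/

namespace Pool.Agent.Lib.MP_bb9e9d_lc

open Cardinal

variable {N : ℕ} {S Δ : Type} [Fintype S]

/-- the multiplicities of the states -/
noncomputable def mult (c : Δ → S) (s : S) : Cardinal.{0} := #{d // c d = s}

private theorem A1_fin (c : Δ → S) (A : Finset S) : #{d // c d ∈ A} = ∑ s ∈ A, mult c s := by
  classical
  induction A using Finset.induction_on with
  | empty =>
    rw [Finset.sum_empty, Cardinal.mk_eq_zero_iff]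
    exact ⟨fun d => absurd d.2 (Finset.notMem_empty _)⟩
  | insert a A ha ih =>
    rw [Finset.sum_insert ha, ← ih]
    have h1 : #{d // c d ∈ insert a A} = #(({d | c d = a} ∪ {d | c d ∈ A} : Set Δ)) := by
      apply Cardinal.mk_congr
      refine Equiv.subtypeEquivRight fun d => ?_
      rw [Finset.mem_insert]
      rfl
    have h2 : Disjoint ({d | c d = a} : Set Δ) {d | c d ∈ A} := by
      rw [Set.disjoint_left]
      intro d hd hd'
      have hd1 : c d = a := hd
      have hd2 : c d ∈ A := hd'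
      rw [hd1] at hd2
      exact ha hd2
    rw [h1, Cardinal.mk_union_of_disjoint h2]
    rfl

/-- Proof: `{d // p (c d)}` is the disjoint union of the fibres of `c` over the `s` with `p s`
(`Cardinal.mk_sigma`, `Equiv.sigmaFiberEquiv` or similar, `Cardinal.sum` over a finite type). -/
theorem mult_sum (c : Δ → S) (p : S → Prop) [DecidablePred p] :
    #{d // p (c d)} = ∑ s with p s, mult c s := by
  rw [← A1_fin]
  apply Cardinal.mk_congr
  refine Equiv.subtypeEquivRight fun d => ?_
  simp

theorem mult_ne_zero (c : Δ → S) (s : S) : mult c s ≠ 0 ↔ ∃ d, c d = s := by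
  unfold mult
  rw [Cardinal.mk_ne_zero_iff, nonempty_subtype]

/-- Proof: `Δ = Σ s, (n s).out`, `c = Sigma.fst`. -/
theorem exists_mult (n : S → Cardinal.{0}) : ∃ (Δ : Type) (c : Δ → S), mult c = n := by
  refine ⟨Σ s, (n s).out, Sigma.fst, ?_⟩
  funext s
  unfold mult
  have h1 : #{d : Σ s, (n s).out // d.1 = s} = #(n s).out := by
    apply Cardinal.mk_congr
    exact
      { toFun := fun d => d.2 ▸ d.1.2
        invFun := fun x => ⟨⟨s, x⟩, rfl⟩
        left_inv := by
          rintro ⟨⟨t, x⟩, rfl⟩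
          rfl
        right_inv := fun x => rfl }
  rw [h1, Cardinal.mk_out]

/-- Proof: `mult_sum` with `p = True`; a finite sum of finite cardinals is finite. -/
theorem infinite_iff (c : Δ → S) : Infinite Δ ↔ ∃ s, ℵ₀ ≤ mult c s := by
  constructor
  · intro h
    by_contra hcon
    push Not at hcon
    have h1 := mult_sum c (fun _ => True)
    have h2 : #{d : Δ // True} = #Δ := Cardinal.mk_congr (Equiv.subtypeUnivEquiv fun _ => trivial)
    rw [h2] at h1
    have h3 : ∑ s with (fun _ : S => True) s, mult c s < ℵ₀ :=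
      Finset.sum_induction _ (fun x => x < ℵ₀) (fun _ _ ha hb => Cardinal.add_lt_aleph0 ha hb)
        Cardinal.aleph0_pos (fun s _ => hcon s)
    rw [← h1] at h3
    exact absurd (Cardinal.infinite_iff.1 h) (not_le.2 h3)
  · rintro ⟨s, hs⟩
    have h1 : Infinite {d // c d = s} := Cardinal.infinite_iff.2 hs
    exact Infinite.of_injective (Subtype.val : {d // c d = s} → Δ) Subtype.val_injective

private theorem A1_ex (c : Δ → S) (p : S → Prop) : (∃ d, p (c d)) ↔ ∃ s, mult c s ≠ 0 ∧ p s := by
  constructor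
  · rintro ⟨d, hd⟩
    exact ⟨c d, (mult_ne_zero c _).2 ⟨d, rfl⟩, hd⟩
  · rintro ⟨s, hs, hp⟩
    obtain ⟨d, rfl⟩ := (mult_ne_zero c s).1 hs
    exact ⟨d, hp⟩

private theorem A1_one (p : Δ → Prop) : (∃! d, p d) ↔ #{d // p d} = 1 := by
  rw [Cardinal.eq_one_iff_unique]
  constructor
  · rintro ⟨d, hd, hu⟩
    exact ⟨⟨fun x y => Subtype.ext ((hu _ x.2).trans (hu _ y.2).symm)⟩, ⟨⟨d, hd⟩⟩⟩
  · rintro ⟨h1, ⟨x⟩⟩
    exact ⟨x.1, x.2, fun y hy => congrArg Subtype.val (h1.allEq ⟨y, hy⟩ x)⟩

/-- Proof: each condition separately: `mult_ne_zero`; `∃!` means that the cardinal of the subtype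
is one (`mult_sum`, `Cardinal.mk_eq_one`, ...); `Nonempty (_ ≃ _)` is equality of cardinals
(`Cardinal.eq`). -/
theorem iconf_iff (Q : Prob N S) (c : Δ → S) : IConf Q c ↔ ICard Q (mult c) := by
  constructor
  · intro h
    refine ⟨?_, ?_, ?_, ?_⟩
    · intro s hs
      obtain ⟨d, rfl⟩ := (mult_ne_zero c s).1 hs
      exact h.loc d
    · intro a ha
      rw [← mult_sum c (fun s => Q.db s a = true)]
      exact (A1_one _).1 (h.named a ha)
    · intro P
      rw [← mult_sum c (fun s => Q.xb s P = true), ← mult_sum c (fun s => Q.yb s P = true)]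
      exact Cardinal.eq.2 (h.bal P)
    · intro P
      rw [← A1_ex c (fun s => Q.ob s P = true), ← A1_ex c (fun s => Q.ib s P = true)]
      exact h.ne P
  · intro h
    refine ⟨?_, ?_, ?_, ?_⟩
    · intro d
      exact h.loc (c d) ((mult_ne_zero c _).2 ⟨d, rfl⟩)
    · intro a ha
      have h1 := h.named a ha
      rw [← mult_sum c (fun s => Q.db s a = true)] at h1
      exact (A1_one _).2 h1
    · intro P
      have h1 := h.bal P
      rw [← mult_sum c (fun s => Q.xb s P = true), ← mult_sum c (fun s => Q.yb s P = true)] at h1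
      exact Cardinal.eq.1 h1
    · intro P
      have h1 := h.ne P
      rw [← A1_ex c (fun s => Q.ob s P = true), ← A1_ex c (fun s => Q.ib s P = true)] at h1
      exact h1

end Pool.Agent.Lib.MP_bb9e9d_lc
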