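import Pool.Agent.Lib.MP_bb9e9d_lc.Abs.A1

/-! # Preferred configurations and cardinals -/

namespace Pool.Agent.Lib.MP_bb9e9d_lc

open Cardinal

variable {N : ℕ} {S Δ : Type} [Fintype S]

private theorem A2_sigma (f : S → Type) : #(Σ i, f i) = ∑ i, #(f i) := by
  classical
  have h := mult_sum (Δ := Σ i, f i) (S := S) Sigma.fst (fun _ => True)
  have h1 : #{d : (Σ i, f i) // True} = #(Σ i, f i) :=
    Cardinal.mk_congr (Equiv.subtypeUnivEquiv (fun _ => trivial))
  rw [h1, Finset.filter_true_of_mem (fun _ _ => trivial)] at h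
  rw [h]
  refine Finset.sum_congr rfl fun s _ => ?_
  exact Cardinal.mk_congr (Equiv.sigmaSubtype s)

/-- Split every fibre of `c` according to prescribed cardinals.
Proof: for each `s`, `#{d // c d = s} = ∑ s', x s s' = #(Σ s', (x s s').out)`; choose a bijection
`e s`, and `c' d = (e (c d) ⟨d, rfl⟩).1`. -/
theorem exists_refine (c : Δ → S) (x : S → S → Cardinal.{0}) (h : ∀ s, ∑ s', x s s' = mult c s) :
    ∃ c' : Δ → S, ∀ s s', #{d // c d = s ∧ c' d = s'} = x s s' := by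
  classical
  have hex : ∀ s, Nonempty ({d // c d = s} ≃ (Σ s', (x s s').out)) := by
    intro s
    rw [← Cardinal.eq, A2_sigma]
    simp only [Cardinal.mk_out]
    exact (h s).symm
  let e : ∀ s, {d // c d = s} ≃ (Σ s', (x s s').out) := fun s => (hex s).some
  refine ⟨fun d => (e (c d) ⟨d, rfl⟩).1, fun s s' => ?_⟩
  have h1 : #{d // c d = s ∧ (e (c d) ⟨d, rfl⟩).1 = s'} = #{y : {d // c d = s} // (e (c y.1) ⟨y.1, rfl⟩).1 = s'} :=
    Cardinal.mk_congr (Equiv.subtypeSubtypeEquivSubtypeInter (fun d => c d = s)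
      (fun d => (e (c d) ⟨d, rfl⟩).1 = s')).symm
  have h2 : #{y : {d // c d = s} // (e (c y.1) ⟨y.1, rfl⟩).1 = s'} = #{z : (Σ s', (x s s').out) // z.1 = s'} := by
    refine Cardinal.mk_congr (Equiv.subtypeEquiv (e s) ?_)
    rintro ⟨d, hd⟩
    subst hd
    rfl
  have h3 : #{z : (Σ s', (x s s').out) // z.1 = s'} = x s s' := by
    rw [Cardinal.mk_congr (Equiv.sigmaSubtype s'), Cardinal.mk_out]
  rw [h1, h2, h3]

/-- Proof: `(c d, c' d)` with `p (c' d)`: disjoint union over all pairs `(s, s')` with `p s'`. -/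
theorem mult_sum₂ (c c' : Δ → S) (p : S → Prop) [DecidablePred p] :
    #{d // p (c' d)} = ∑ s, ∑ s' with p s', #{d // c d = s ∧ c' d = s'} := by
  classical
  have h := mult_sum (Δ := Δ) (S := S × S) (fun d => (c d, c' d)) (fun z => p z.2)
  rw [h, Finset.sum_filter, Fintype.sum_prod_type]
  refine Finset.sum_congr rfl fun s _ => ?_
  rw [Finset.sum_filter]
  refine Finset.sum_congr rfl fun s' _ => ?_
  simp only
  split_ifs
  · unfold mult
    exact Cardinal.mk_congr (Equiv.subtypeEquivRight fun d => Prod.mk_inj)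
  · rfl

private theorem A2_sum (c c' : Δ → S) (s : S) : ∑ s', #{d // c d = s ∧ c' d = s'} = mult c s := by
  classical
  have h := mult_sum (Δ := Δ) (S := S × S) (fun d => (c d, c' d)) (fun z => z.1 = s)
  unfold mult at h ⊢
  simp only at h
  rw [h, Finset.sum_filter, Fintype.sum_prod_type]
  symm
  refine (Finset.sum_eq_single s ?_ ?_).trans ?_
  · intro s1 _ hs1
    exact Finset.sum_eq_zero fun s' _ => if_neg hs1
  · intro hs
    exact absurd (Finset.mem_univ s) hs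
  · refine Finset.sum_congr rfl fun s' _ => ?_
    rw [if_pos rfl]
    exact Cardinal.mk_congr (Equiv.subtypeEquivRight fun d => Prod.mk_inj)

omit [Fintype S] in
private theorem A2_ne (c c' : Δ → S) (s s' : S) :
    #{d // c d = s ∧ c' d = s'} ≠ 0 ↔ ∃ d, c d = s ∧ c' d = s' := by
  rw [Cardinal.mk_ne_zero_iff, nonempty_subtype]

omit [Fintype S] in
private theorem A2_ex (c c' : Δ → S) (r : S → S → Prop) :
    (∃ s s', #{d // c d = s ∧ c' d = s'} ≠ 0 ∧ r s s') ↔ ∃ d, r (c d) (c' d) := by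
  constructor
  · rintro ⟨s, s', h1, h2⟩
    obtain ⟨d, hd1, hd2⟩ := (A2_ne c c' s s').1 h1
    exact ⟨d, by rw [hd1, hd2]; exact h2⟩
  · rintro ⟨d, hd⟩
    exact ⟨c d, c' d, (A2_ne c c' _ _).2 ⟨d, rfl, rfl⟩, hd⟩

private theorem A2_iff (Q : Prob N S) (c c' : Δ → S) :
    JConf Q c c' ↔ JX Q (mult c) (fun s s' => #{d // c d = s ∧ c' d = s'}) := by
  classical
  have hne : ∀ P, (((∃ s s', #{d // c d = s ∧ c' d = s'} ≠ 0 ∧ Q.ob s' P = true) ↔
      ∃ s s', #{d // c d = s ∧ c' d = s'} ≠ 0 ∧ Q.ib s' P = true) ↔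
      ((∃ d, Q.ob (c' d) P = true) ↔ ∃ d, Q.ib (c' d) P = true)) := by
    intro P
    rw [A2_ex c c' (fun _ s' => Q.ob s' P = true), A2_ex c c' (fun _ s' => Q.ib s' P = true)]
  have hbal : ∀ P, (Nonempty ({d // Q.xb (c' d) P = true} ≃ {d // Q.yb (c' d) P = true}) ↔
      ∑ s, ∑ s' with Q.xb s' P = true, #{d // c d = s ∧ c' d = s'} =
        ∑ s, ∑ s' with Q.yb s' P = true, #{d // c d = s ∧ c' d = s'}) := by
    intro P
    rw [← Cardinal.eq, mult_sum₂ c c' (fun s' => Q.xb s' P = true),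
      mult_sum₂ c c' (fun s' => Q.yb s' P = true)]
  have hp1 : (fun p => decide (∃ s s', #{d // c d = s ∧ c' d = s'} ≠ 0 ∧ Q.mb s' p = true ∧
      Q.mb s p = false)) = fun p => decide (∃ d, Q.mb (c' d) p = true ∧ Q.mb (c d) p = false) := by
    funext p
    rw [decide_eq_decide]
    exact A2_ex c c' (fun s s' => Q.mb s' p = true ∧ Q.mb s p = false)
  have hp2 : (fun p => decide (∃ s s', #{d // c d = s ∧ c' d = s'} ≠ 0 ∧ Q.mb s p = true ∧
      Q.mb s' p = false)) = fun p => decide (∃ d, Q.mb (c d) p = true ∧ Q.mb (c' d) p = false) := by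
    funext p
    rw [decide_eq_decide]
    exact A2_ex c c' (fun s s' => Q.mb s p = true ∧ Q.mb s' p = false)
  constructor
  · intro h
    refine ⟨A2_sum c c', ?_, fun P => ?_, fun P => (hne P).2 (h.ne P), ?_⟩
    · intro s s' hss
      obtain ⟨d, hd1, hd2⟩ := (A2_ne c c' s s').1 hss
      have h1 := h.mv d
      have h2 := h.loc d
      rw [hd1, hd2] at h1
      rw [hd2] at h2
      exact ⟨h1, h2⟩
    · have := (hbal P).1 (h.bal P)
      convert this
    · have := h.pref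
      convert this
  · intro h
    refine ⟨fun d => ?_, fun d => ?_, fun P => ?_, fun P => (hne P).1 (h.ne P), ?_⟩
    · exact (h.ok (c d) (c' d) ((A2_ne c c' _ _).2 ⟨d, rfl, rfl⟩)).1
    · exact (h.ok (c d) (c' d) ((A2_ne c c' _ _).2 ⟨d, rfl, rfl⟩)).2
    · apply (hbal P).2
      have := h.bal P
      convert this
    · have := h.pref
      convert this using 1
      · rw [← hp1]
      · rw [← hp2]

/-- Proof: `x s s' = #{d // c d = s ∧ c' d = s'}`; conversely `exists_refine`.  `x s s' ≠ 0` iff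
there is `d` with `c d = s`, `c' d = s'`. -/
theorem jconf_iff (Q : Prob N S) (c : Δ → S) : (∃ c' : Δ → S, JConf Q c c') ↔
    JCard Q (mult c) := by
  constructor
  · rintro ⟨c', h⟩
    exact ⟨_, (A2_iff Q c c').1 h⟩
  · rintro ⟨x, hx⟩
    obtain ⟨c', hc'⟩ := exists_refine c x hx.sum
    refine ⟨c', (A2_iff Q c c').2 ?_⟩
    have : (fun s s' => #{d // c d = s ∧ c' d = s'}) = x := by
      funext s s'
      exact hc' s s'
    rw [this]
    exact hx

/-- Proof: `iconf_iff`, `jconf_iff`, `infinite_iff`, `mult_ne_zero`, `exists_mult`. -/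
theorem hasModel_iff_card (u : Bool) (Q : Prob N S) : HasModel u Q ↔
    ∃ n : S → Cardinal.{0}, (u = true → ∃ s, ℵ₀ ≤ n s) ∧ ICard Q n ∧ (∃ s, n s ≠ 0 ∧ Q.c0 s) ∧
      ¬ JCard Q n := by
  have key : ∀ (Δ : Type) (c : Δ → S), ((u = true → Infinite Δ) ∧ IConf Q c ∧ (∃ d, Q.c0 (c d)) ∧
      ¬ ∃ c' : Δ → S, JConf Q c c') ↔ ((u = true → ∃ s, ℵ₀ ≤ mult c s) ∧ ICard Q (mult c) ∧
      (∃ s, mult c s ≠ 0 ∧ Q.c0 s) ∧ ¬ JCard Q (mult c)) := by
    intro Δ c
    rw [infinite_iff c, iconf_iff, jconf_iff]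
    have : (∃ d, Q.c0 (c d)) ↔ ∃ s, mult c s ≠ 0 ∧ Q.c0 s := by
      constructor
      · rintro ⟨d, hd⟩
        exact ⟨c d, (mult_ne_zero c _).2 ⟨d, rfl⟩, hd⟩
      · rintro ⟨s, hs1, hs2⟩
        obtain ⟨d, hd⟩ := (mult_ne_zero c s).1 hs1
        exact ⟨d, by rw [hd]; exact hs2⟩
    rw [this]
  constructor
  · rintro ⟨Δ, c, h⟩
    exact ⟨mult c, (key Δ c).1 h⟩
  · rintro ⟨n, hn⟩
    obtain ⟨Δ, c, rfl⟩ := exists_mult n
    exact ⟨Δ, c, (key Δ c).2 hn⟩

end Pool.Agent.Lib.MP_bb9e9d_lc
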