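import Pool.Agent.Lib.MP_bb9e9d_lc.Abs.Defs

/-! # Collapsing the infinite cardinals -/

namespace Pool.Agent.Lib.MP_bb9e9d_lc

open Cardinal

variable {N : ℕ} {S : Type} [Fintype S]

/-- monotone maps of cardinals that fix the finite cardinals and preserve infinity -/
structure Tame (g : Cardinal.{0} → Cardinal.{0}) : Prop where
  mono : Monotone g
  fin : ∀ κ, κ < ℵ₀ → g κ = κ
  inf : ∀ κ, ℵ₀ ≤ κ → ℵ₀ ≤ g κ

variable {g : Cardinal.{0} → Cardinal.{0}}

/-- Proof: if both are finite, so is the sum; otherwise `a + b = max a b` (`Cardinal.add_eq_max`)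
and `Monotone.map_max`; `g a + g b = max (g a) (g b)` since one of them is infinite. -/
theorem Tame.add (hg : Tame g) (a b : Cardinal.{0}) : g (a + b) = g a + g b := by
  rcases lt_or_ge a ℵ₀ with ha | ha
  · rcases lt_or_ge b ℵ₀ with hb | hb
    · rw [hg.fin a ha, hg.fin b hb, hg.fin _ (Cardinal.add_lt_aleph0 ha hb)]
    · rw [Cardinal.add_eq_max' hb, hg.mono.map_max, Cardinal.add_eq_max' (hg.inf b hb)]
  · rw [Cardinal.add_eq_max ha, hg.mono.map_max, Cardinal.add_eq_max (hg.inf a ha)]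

theorem Tame.zero (hg : Tame g) : g 0 = 0 := hg.fin 0 Cardinal.aleph0_pos

theorem Tame.one (hg : Tame g) : g 1 = 1 := hg.fin 1 Cardinal.one_lt_aleph0

theorem Tame.ne_zero (hg : Tame g) (a : Cardinal.{0}) : g a ≠ 0 ↔ a ≠ 0 := by
  rcases lt_or_ge a ℵ₀ with ha | ha
  · rw [hg.fin a ha]
  · exact ⟨fun _ => (Cardinal.aleph0_pos.trans_le ha).ne',
      fun _ => (Cardinal.aleph0_pos.trans_le (hg.inf a ha)).ne'⟩

theorem Tame.inf_iff (hg : Tame g) (a : Cardinal.{0}) : ℵ₀ ≤ g a ↔ ℵ₀ ≤ a := by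
  rcases lt_or_ge a ℵ₀ with ha | ha
  · rw [hg.fin a ha]
  · exact ⟨fun _ => ha, fun _ => hg.inf a ha⟩

theorem Tame.sum (hg : Tame g) {α : Type*} (A : Finset α) (f : α → Cardinal.{0}) :
    g (∑ a ∈ A, f a) = ∑ a ∈ A, g (f a) := by
  classical
  induction A using Finset.induction_on with
  | empty => simp [hg.zero]
  | insert a A ha ih => rw [Finset.sum_insert ha, Finset.sum_insert ha, hg.add, ih]

/-- Proof: transport every condition with `Tame.sum`, `Tame.ne_zero`, `Tame.one`. -/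
theorem ICard.map (hg : Tame g) {Q : Prob N S} {n : S → Cardinal.{0}} (h : ICard Q n) :
    ICard Q fun s => g (n s) := by
  refine ⟨?_, ?_, ?_, ?_⟩
  · intro s hs
    exact h.loc s ((hg.ne_zero _).mp hs)
  · intro a ha
    rw [← hg.sum, h.named a ha, hg.one]
  · intro P
    rw [← hg.sum, ← hg.sum, h.bal P]
  · intro P
    simp only [hg.ne_zero]
    exact h.ne P

/-- Proof: the same, with `g (x s s')`. -/
theorem JCard.map (hg : Tame g) {Q : Prob N S} {n : S → Cardinal.{0}} (h : JCard Q n) :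
    JCard Q fun s => g (n s) := by
  obtain ⟨x, hx⟩ := h
  refine ⟨fun s s' => g (x s s'), ?_, ?_, ?_, ?_, ?_⟩
  · intro s
    rw [← hg.sum, hx.sum s]
  · intro s s' h
    exact hx.ok s s' ((hg.ne_zero _).mp h)
  · intro P
    simp only [← hg.sum]
    rw [hx.bal P]
  · intro P
    simp only [hg.ne_zero]
    exact hx.ne P
  · simp only [hg.ne_zero]
    exact hx.pref

end Pool.Agent.Lib.MP_bb9e9d_lc
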