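import Pool.Agent.Lib.MP_bb9e9d_lc.Abs.A3

/-! # Collapsing the infinite cardinals: existence of the maps -/

namespace Pool.Agent.Lib.MP_bb9e9d_lc

open Cardinal

variable {N : ℕ} {S : Type} [Fintype S]

/-- Proof: let `C` be the finite set of the infinite values of `n`.  `g κ = κ` for finite `κ`,
otherwise `g κ = ℵ_r`, `r = #{c ∈ C | c < κ}` (monotone; strictly monotone on `C`; on `C` the rank
`r` is less than `#C ≤ card S`).  `h κ = κ` for finite `κ`, otherwise `h κ` is the supremum of `ℵ₀`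
and of the `c ∈ C` with `g c ≤ κ`.  For `c ∈ C`: `h (g c) = c`, since `g c' ≤ g c` iff `c' ≤ c`.
`m s = inl a` if `n s = a` is finite, `inr r` otherwise. -/
theorem exists_collapse (n : S → Cardinal.{0}) :
    ∃ g h : Cardinal.{0} → Cardinal.{0}, Tame g ∧ Tame h ∧ (∀ s, h (g (n s)) = n s) ∧
      ∃ m : S → ℕ ⊕ ℕ, (∀ s, toC (m s) = g (n s)) ∧ ∀ s, lv m s ≤ Fintype.card S := by
  classical
  set C : Finset Cardinal.{0} := (Finset.univ.image n).filter (fun c => ℵ₀ ≤ c) with hC
  have memC : ∀ s, ℵ₀ ≤ n s → n s ∈ C := fun s hs =>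
    Finset.mem_filter.2 ⟨Finset.mem_image.2 ⟨s, Finset.mem_univ _, rfl⟩, hs⟩
  have hCc : C.card ≤ Fintype.card S := by
    calc C.card ≤ (Finset.univ.image n).card := Finset.card_filter_le _ _
      _ ≤ (Finset.univ : Finset S).card := Finset.card_image_le
      _ = Fintype.card S := Finset.card_univ
  set rk : Cardinal.{0} → ℕ := fun κ => (C.filter (fun c => c < κ)).card with hrk
  have rk_mono : ∀ a b : Cardinal.{0}, a ≤ b → rk a ≤ rk b := by
    intro a b hab
    apply Finset.card_le_card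
    intro c hc
    rw [Finset.mem_filter] at hc ⊢
    exact ⟨hc.1, hc.2.trans_le hab⟩
  have rk_lt : ∀ a b : Cardinal.{0}, a ∈ C → a < b → rk a < rk b := by
    intro a b ha hab
    apply Finset.card_lt_card
    rw [Finset.ssubset_iff_of_subset]
    · refine ⟨a, Finset.mem_filter.2 ⟨ha, hab⟩, ?_⟩
      intro h
      exact lt_irrefl _ (Finset.mem_filter.1 h).2
    · intro c hc
      rw [Finset.mem_filter] at hc ⊢
      exact ⟨hc.1, hc.2.trans hab⟩
  have rk_card : ∀ a : Cardinal.{0}, a ∈ C → rk a < C.card := by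
    intro a ha
    apply Finset.card_lt_card
    rw [Finset.ssubset_iff_of_subset (Finset.filter_subset _ _)]
    exact ⟨a, ha, fun h => lt_irrefl _ (Finset.mem_filter.1 h).2⟩
  set g : Cardinal.{0} → Cardinal.{0} := fun κ => if κ < ℵ₀ then κ else Cardinal.aleph (rk κ)
    with hg
  have g_fin : ∀ κ, κ < ℵ₀ → g κ = κ := fun κ hκ => if_pos hκ
  have g_inf : ∀ κ, ℵ₀ ≤ κ → g κ = Cardinal.aleph (rk κ) := fun κ hκ => if_neg (not_lt.2 hκ)
  have g_inf' : ∀ κ, ℵ₀ ≤ κ → ℵ₀ ≤ g κ := by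
    intro κ hκ
    rw [g_inf κ hκ]
    exact Cardinal.aleph0_le_aleph _
  have g_mono : Monotone g := by
    intro a b hab
    rcases lt_or_ge a ℵ₀ with ha | ha
    · rcases lt_or_ge b ℵ₀ with hb | hb
      · rw [g_fin a ha, g_fin b hb]; exact hab
      · rw [g_fin a ha]; exact ha.le.trans (g_inf' b hb)
    · rw [g_inf a ha, g_inf b (ha.trans hab)]
      exact Cardinal.aleph_le_aleph.2 (by exact_mod_cast rk_mono a b hab)
  set h : Cardinal.{0} → Cardinal.{0} := fun κ => if κ < ℵ₀ then κ else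
    (C.filter (fun c => g c ≤ κ)).sup id ⊔ ℵ₀ with hh
  have h_fin : ∀ κ, κ < ℵ₀ → h κ = κ := fun κ hκ => if_pos hκ
  have h_inf : ∀ κ, ℵ₀ ≤ κ → h κ = (C.filter (fun c => g c ≤ κ)).sup id ⊔ ℵ₀ :=
    fun κ hκ => if_neg (not_lt.2 hκ)
  have h_inf' : ∀ κ, ℵ₀ ≤ κ → ℵ₀ ≤ h κ := by
    intro κ hκ
    rw [h_inf κ hκ]
    exact le_sup_right
  have h_mono : Monotone h := by
    intro a b hab
    rcases lt_or_ge a ℵ₀ with ha | ha
    · rcases lt_or_ge b ℵ₀ with hb | hb
      · rw [h_fin a ha, h_fin b hb]; exact hab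
      · rw [h_fin a ha]; exact ha.le.trans (h_inf' b hb)
    · rw [h_inf a ha, h_inf b (ha.trans hab)]
      apply sup_le_sup_right
      apply Finset.sup_mono
      intro c hc
      rw [Finset.mem_filter] at hc ⊢
      exact ⟨hc.1, hc.2.trans hab⟩
  refine ⟨g, h, ⟨g_mono, g_fin, g_inf'⟩, ⟨h_mono, h_fin, h_inf'⟩, ?_,
    fun s => if n s < ℵ₀ then .inl (Cardinal.toNat (n s)) else .inr (rk (n s)), ?_, ?_⟩
  · intro s
    rcases lt_or_ge (n s) ℵ₀ with hs | hs
    · rw [g_fin _ hs, h_fin _ hs]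
    · rw [h_inf _ (g_inf' _ hs)]
      apply le_antisymm
      · apply sup_le _ hs
        apply Finset.sup_le
        intro c hc
        rw [Finset.mem_filter] at hc
        show c ≤ n s
        by_contra hcon
        rw [not_le] at hcon
        have h1 := rk_lt (n s) c (memC s hs) hcon
        have h2 : ℵ₀ ≤ c := (Finset.mem_filter.1 hc.1).2
        have h3 := hc.2
        rw [g_inf c h2, g_inf _ hs, Cardinal.aleph_le_aleph] at h3
        have h4 : rk c ≤ rk (n s) := by exact_mod_cast h3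
        omega
      · refine le_trans ?_ le_sup_left
        exact Finset.le_sup (f := id) (Finset.mem_filter.2 ⟨memC s hs, le_rfl⟩)
  · intro s
    beta_reduce
    rcases lt_or_ge (n s) ℵ₀ with hs | hs
    · rw [if_pos hs, g_fin _ hs]
      exact Cardinal.cast_toNat_of_lt_aleph0 hs
    · rw [if_neg (not_lt.2 hs), g_inf _ hs]
      rfl
  · intro s
    rcases lt_or_ge (n s) ℵ₀ with hs | hs
    · simp only [lv, if_pos hs]
      exact Nat.zero_le _
    · simp only [lv, if_neg (not_lt.2 hs)]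
      exact (rk_card _ (memC s hs)).trans_le hCc

end Pool.Agent.Lib.MP_bb9e9d_lc
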