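import Pool.Agent.Lib.MP_bb9e9d_lc.Abs.Defs

/-! # Sums of multiplicities -/

namespace Pool.Agent.Lib.MP_bb9e9d_lc

open Cardinal

variable {N : ℕ} {S : Type} [Fintype S]

theorem toC_ne_zero (a : ℕ ⊕ ℕ) : toC a ≠ 0 ↔ a ≠ .inl 0 := by
  rcases a with n | k
  · simp [toC]
  · simp only [toC]
    constructor
    · intro _ h
      exact absurd h (by simp)
    · intro _
      exact (Cardinal.aleph_pos _).ne'

theorem toC_inf (m : S → ℕ ⊕ ℕ) (s : S) : ℵ₀ ≤ toC (m s) ↔ lv m s ≠ 0 := by
  unfold lv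
  rcases m s with n | k
  · simp only [toC, ne_eq, not_true_eq_false, iff_false, not_le]
    exact Cardinal.natCast_lt_aleph0
  · simp only [toC, ne_eq, Nat.add_one_ne_zero, not_false_eq_true, iff_true]
    exact Cardinal.aleph0_le_aleph _

omit [Fintype S] in
private lemma toC_fin (m : S → ℕ ⊕ ℕ) {s : S} (h : lv m s = 0) :
    toC (m s) = ((fp m s : ℕ) : Cardinal.{0}) := by
  rcases hm : m s with n | k
  · simp [toC, fp, hm]
  · simp [lv, hm] at h

omit [Fintype S] in
private lemma toC_lv (m : S → ℕ ⊕ ℕ) {s : S} {k : ℕ} (h : lv m s = k + 1) :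
    toC (m s) = Cardinal.aleph k := by
  rcases hm : m s with n | j
  · simp [lv, hm] at h
  · simp only [lv, hm, Nat.add_right_cancel_iff] at h
    rw [h]
    rfl

/-- A finite sum with all levels zero is finite. -/
theorem sum_toC_fin (m : S → ℕ ⊕ ℕ) (A : Finset S) (h : A.sup (lv m) = 0) :
    ∑ s ∈ A, toC (m s) = ((∑ s ∈ A, fp m s : ℕ) : Cardinal.{0}) := by
  rw [Nat.cast_sum]
  apply Finset.sum_congr rfl
  intro s hs
  apply toC_fin
  have h1 : lv m s ≤ A.sup (lv m) := Finset.le_sup hs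
  omega

/-- Otherwise the sum is the largest aleph.  Proof: induction on `A`, `Cardinal.add_eq_max`. -/
theorem sum_toC_inf (m : S → ℕ ⊕ ℕ) (A : Finset S) {k : ℕ} (h : A.sup (lv m) = k + 1) :
    ∑ s ∈ A, toC (m s) = Cardinal.aleph k := by
  classical
  apply le_antisymm
  · have h1 : ∀ s ∈ A, toC (m s) ≤ Cardinal.aleph k := by
      intro s hs
      have h2 : lv m s ≤ A.sup (lv m) := Finset.le_sup hs
      rcases Nat.eq_zero_or_pos (lv m s) with h0 | h0
      · rw [toC_fin m h0]
        exact (Cardinal.natCast_lt_aleph0).le.trans (Cardinal.aleph0_le_aleph _)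
      · obtain ⟨j, hj⟩ : ∃ j, lv m s = j + 1 := ⟨lv m s - 1, by omega⟩
        rw [toC_lv m hj, Cardinal.aleph_le_aleph]
        exact_mod_cast (by omega : j ≤ k)
    clear h
    induction A using Finset.induction_on with
    | empty => simp
    | insert a A ha ih =>
      rw [Finset.sum_insert ha]
      exact Cardinal.add_le_of_le (Cardinal.aleph0_le_aleph _) (h1 a (Finset.mem_insert_self a A))
        (ih fun s hs => h1 s (Finset.mem_insert_of_mem hs))
  · have hne : A.Nonempty := by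
      rw [Finset.nonempty_iff_ne_empty]
      rintro rfl
      simp at h
    obtain ⟨s, hs, hs'⟩ := Finset.exists_mem_eq_sup A hne (lv m)
    rw [← toC_lv m (hs'.symm.trans h)]
    exact Finset.single_le_sum (f := fun s => toC (m s)) (fun _ _ => zero_le) hs

private lemma nat_ne_aleph (n k : ℕ) : ((n : ℕ) : Cardinal.{0}) ≠ Cardinal.aleph k :=
  ((Cardinal.natCast_lt_aleph0).trans_le (Cardinal.aleph0_le_aleph _)).ne

private lemma sum_eq_iff (m : S → ℕ ⊕ ℕ) (A B : Finset S) :
    ∑ s ∈ A, toC (m s) = ∑ s ∈ B, toC (m s) ↔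
      A.sup (lv m) = B.sup (lv m) ∧ (A.sup (lv m) = 0 → ∑ s ∈ A, fp m s = ∑ s ∈ B, fp m s) := by
  rcases Nat.eq_zero_or_pos (A.sup (lv m)) with hA | hA
  · rcases Nat.eq_zero_or_pos (B.sup (lv m)) with hB | hB
    · rw [sum_toC_fin m A hA, sum_toC_fin m B hB, hA, hB, Nat.cast_inj]
      simp
    · obtain ⟨k, hk⟩ : ∃ k, B.sup (lv m) = k + 1 := ⟨B.sup (lv m) - 1, by omega⟩
      rw [sum_toC_fin m A hA, sum_toC_inf m B hk, hA, hk]
      constructor
      · intro h
        exact (nat_ne_aleph _ _ h).elim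
      · rintro ⟨h, -⟩
        omega
  · obtain ⟨j, hj⟩ : ∃ j, A.sup (lv m) = j + 1 := ⟨A.sup (lv m) - 1, by omega⟩
    rcases Nat.eq_zero_or_pos (B.sup (lv m)) with hB | hB
    · rw [sum_toC_inf m A hj, sum_toC_fin m B hB, hj, hB]
      constructor
      · intro h
        exact (nat_ne_aleph _ _ h.symm).elim
      · rintro ⟨h, -⟩
        omega
    · obtain ⟨k, hk⟩ : ∃ k, B.sup (lv m) = k + 1 := ⟨B.sup (lv m) - 1, by omega⟩
      rw [sum_toC_inf m A hj, sum_toC_inf m B hk, hj, hk, Cardinal.aleph.injective.eq_iff, Nat.cast_inj]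
      constructor
      · intro h
        exact ⟨by omega, fun h' => by omega⟩
      · rintro ⟨h, -⟩
        omega

/-- Proof: the two sums are equal iff the suprema are equal and, if they are zero, the sums of the
finite parts are equal. -/
theorem icard_iff (Q : Prob N S) (m : S → ℕ ⊕ ℕ) : (ICard Q fun s => toC (m s)) ↔ IMu Q m := by
  have h1 : ∀ A : Finset S, ∑ s ∈ A, toC (m s) = 1 ↔ A.sup (lv m) = 0 ∧ ∑ s ∈ A, fp m s = 1 := by
    intro A
    rcases Nat.eq_zero_or_pos (A.sup (lv m)) with hA | hA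
    · rw [sum_toC_fin m A hA, Nat.cast_eq_one]
      simp [hA]
    · obtain ⟨j, hj⟩ : ∃ j, A.sup (lv m) = j + 1 := ⟨A.sup (lv m) - 1, by omega⟩
      rw [sum_toC_inf m A hj, hj]
      constructor
      · intro h
        refine (nat_ne_aleph 1 j ?_).elim
        rw [h, Nat.cast_one]
      · rintro ⟨h, -⟩
        omega
  constructor
  · intro h
    refine ⟨fun s hs => h.loc s ((toC_ne_zero _).2 hs), fun a ha => (h1 _).1 (h.named a ha),
      fun P => ((sum_eq_iff m _ _).1 (h.bal P)).1, fun P => ((sum_eq_iff m _ _).1 (h.bal P)).2,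
      fun P => ?_⟩
    have := h.ne P
    simp only [toC_ne_zero] at this
    exact this
  · intro h
    refine ⟨fun s hs => h.loc s ((toC_ne_zero _).1 hs), fun a ha => (h1 _).2 (h.named a ha),
      fun P => (sum_eq_iff m _ _).2 ⟨h.bal P, h.bal0 P⟩, fun P => ?_⟩
    simp only [toC_ne_zero]
    exact h.ne P

end Pool.Agent.Lib.MP_bb9e9d_lc
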