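import Pool.Agent.Lib.MP_bb9e9d_lc.Abs.A5

/-!
# Finite uses and level uses

`a s s'`: the number of elements with the states `s` and `s'` (if it is finite); `W s s' κ`: there
are `ℵ_{κ-1}` elements with the states `s` and `s'`.
-/

namespace Pool.Agent.Lib.MP_bb9e9d_lc

open Cardinal

variable {N : ℕ} {S : Type} [Fintype S]

/-- the pair `(s, s')` is used -/
def Used (a : S → S → ℕ) (W : S → S → ℕ → Prop) (s s' : S) : Prop := a s s' ≠ 0 ∨ ∃ κ, W s s' κ

open Classical in
/-- finite uses `a` and level uses `W` that give a preferred model -/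
structure AW (Q : Prob N S) (m : S → ℕ ⊕ ℕ) (ℓ : Fin N → ℕ) (a : S → S → ℕ)
    (W : S → S → ℕ → Prop) : Prop where
  ok : ∀ s s', Used a W s s' → Q.mv s s' ∧ Q.loc s'
  fin : ∀ s, lv m s = 0 → ∑ s', a s s' = fp m s ∧ ∀ s' κ, ¬ W s s' κ
  top : ∀ s, lv m s ≠ 0 → ∃ s', W s s' (lv m s)
  le : ∀ s s' κ, W s s' κ → 1 ≤ κ ∧ κ ≤ lv m s
  alw : ∀ s s' κ, W s s' κ → alw Q ℓ κ s'
  bal0 : ∀ P, ℓ P = 0 →
    ∑ s, ∑ s' with Q.xb s' P = true, a s s' = ∑ s, ∑ s' with Q.yb s' P = true, a s s'
  hit : ∀ P, ℓ P ≠ 0 → (∃ s s', W s s' (ℓ P) ∧ Q.xb s' P = true) ∧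
    ∃ s s', W s s' (ℓ P) ∧ Q.yb s' P = true
  ne : ∀ P, (∃ s s', Used a W s s' ∧ Q.ob s' P = true) ↔
    ∃ s s', Used a W s s' ∧ Q.ib s' P = true
  pref : Q.pref (fun p => decide (∃ s s', Used a W s s' ∧ Q.mb s' p = true ∧ Q.mb s p = false))
    (fun p => decide (∃ s s', Used a W s s' ∧ Q.mb s p = true ∧ Q.mb s' p = false))

/-- level plus one of a multiplicity -/
private def A6l : ℕ ⊕ ℕ → ℕ
  | .inl _ => 0
  | .inr k => k + 1

private lemma A6_lv {T : Type} (m : T → ℕ ⊕ ℕ) (s : T) : lv m s = A6l (m s) := by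
  unfold lv A6l
  cases m s <;> rfl

private lemma A6_mono {a b : ℕ ⊕ ℕ} (h : toC a ≤ toC b) : A6l a ≤ A6l b := by
  rcases a with a | j
  · exact Nat.zero_le _
  · rcases b with b | k
    · exact absurd ((aleph0_le_aleph j).trans h) (not_le.2 natCast_lt_aleph0)
    · have h1 : (j : Ordinal) ≤ k := aleph_le_aleph.1 h
      have h2 : j ≤ k := by exact_mod_cast h1
      exact Nat.succ_le_succ h2

private lemma A6_ex {c : Cardinal.{0}} {b : ℕ ⊕ ℕ} (h : c ≤ toC b) : ∃ y, toC y = c := by
  rcases lt_or_ge c ℵ₀ with h0 | h0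
  · obtain ⟨n, rfl⟩ := lt_aleph0.1 h0
    exact ⟨.inl n, rfl⟩
  · obtain ⟨o, rfl⟩ := mem_range_aleph_iff.2 h0
    rcases b with n | k
    · exact absurd (h0.trans h) (not_le.2 natCast_lt_aleph0)
    · have h1 : o ≤ (k : Ordinal) := aleph_le_aleph.1 h
      obtain ⟨j, rfl⟩ := Ordinal.lt_omega0.1 (h1.trans_lt (Ordinal.natCast_lt_omega0 k))
      exact ⟨.inr j, rfl⟩

private lemma A6_sum {T : Type} [Fintype T] (m : T → ℕ ⊕ ℕ) (A B : Finset T)
    (h : ∑ s ∈ A, toC (m s) = ∑ s ∈ B, toC (m s)) :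
    A.sup (lv m) = B.sup (lv m) ∧ (A.sup (lv m) = 0 → ∑ s ∈ A, fp m s = ∑ s ∈ B, fp m s) := by
  rcases hA : A.sup (lv m) with _ | k
  · rcases hB : B.sup (lv m) with _ | l
    · rw [sum_toC_fin m A hA, sum_toC_fin m B hB] at h
      exact ⟨rfl, fun _ => by exact_mod_cast h⟩
    · rw [sum_toC_fin m A hA, sum_toC_inf m B hB] at h
      have h1 := aleph0_le_aleph (l : Ordinal)
      rw [← h] at h1
      exact absurd h1 (not_le.2 natCast_lt_aleph0)
  · rcases hB : B.sup (lv m) with _ | l
    · rw [sum_toC_inf m A hA, sum_toC_fin m B hB] at h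
      have h1 := aleph0_le_aleph (k : Ordinal)
      rw [h] at h1
      exact absurd h1 (not_le.2 natCast_lt_aleph0)
    · rw [sum_toC_inf m A hA, sum_toC_inf m B hB] at h
      have h1 : (k : Ordinal) = l := aleph.injective h
      have h2 : k = l := by exact_mod_cast h1
      exact ⟨by rw [h2], fun h => absurd h (Nat.succ_ne_zero _)⟩

/-- Proof: let `x` be the cardinals of `JX` (`∑ s', x s s' = toC (m s)`; every `x s s'` is finite or
some `ℵ_k`, because it is at most `toC (m s)`).  `a s s' = x s s'` if it is finite, otherwise `0`;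
`W s s' κ` iff `x s s' = ℵ_{κ-1}`, `1 ≤ κ`.  `ℓ P = 0` if the common value of the two sums is finite,
`k + 1` if it is `ℵ_k`; it is at most the supremum of the levels of `m`, so at most `L`. -/
theorem aw_of_jcard (Q : Prob N S) (L : ℕ) (m : S → ℕ ⊕ ℕ) (hL : ∀ s, lv m s ≤ L)
    (h : JCard Q fun s => toC (m s)) :
    ∃ (ℓ : Fin N → ℕ) (a : S → S → ℕ) (W : S → S → ℕ → Prop), (∀ P, ℓ P ≤ L) ∧ AW Q m ℓ a W := by
  classical
  obtain ⟨x, hx⟩ := h
  have hle : ∀ s s', x s s' ≤ toC (m s) := by
    intro s s'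
    rw [← hx.sum s]
    exact Finset.single_le_sum_of_canonicallyOrdered (f := x s) (Finset.mem_univ s')
  have hex : ∀ q : S × S, ∃ y, toC y = x q.1 q.2 := fun q => A6_ex (hle q.1 q.2)
  choose y hy using hex
  have hlv : ∀ q : S × S, lv y q ≤ lv m q.1 := by
    intro q
    rw [A6_lv, A6_lv]
    refine A6_mono ?_
    rw [hy]
    exact hle _ _
  set a : S → S → ℕ := fun s s' => fp y (s, s') with ha
  set W : S → S → ℕ → Prop := fun s s' κ => κ ≠ 0 ∧ lv y (s, s') = κ with hW
  have hU : ∀ s s', Used a W s s' ↔ x s s' ≠ 0 := by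
    intro s s'
    rw [← hy (s, s'), toC_ne_zero]
    unfold Used
    simp only [ha, hW]
    unfold fp lv
    rcases y (s, s') with n | k
    · simp
    · simp
  -- the two families of pairs
  set XS : Fin N → Finset (S × S) := fun P => Finset.univ ×ˢ Finset.univ.filter fun s' => Q.xb s' P = true
    with hXS
  set YS : Fin N → Finset (S × S) := fun P => Finset.univ ×ˢ Finset.univ.filter fun s' => Q.yb s' P = true
    with hYS
  have hbal : ∀ P, (XS P).sup (lv y) = (YS P).sup (lv y) ∧
      ((XS P).sup (lv y) = 0 → ∑ q ∈ XS P, fp y q = ∑ q ∈ YS P, fp y q) := by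
    intro P
    refine A6_sum y _ _ ?_
    rw [Finset.sum_product, Finset.sum_product]
    simp only [hy]
    exact hx.bal P
  have hmemX : ∀ P s s', Q.xb s' P = true → (s, s') ∈ XS P := by
    intro P s s' h
    exact Finset.mem_product.2 ⟨Finset.mem_univ _, Finset.mem_filter.2 ⟨Finset.mem_univ _, h⟩⟩
  have hmemY : ∀ P s s', Q.yb s' P = true → (s, s') ∈ YS P := by
    intro P s s' h
    exact Finset.mem_product.2 ⟨Finset.mem_univ _, Finset.mem_filter.2 ⟨Finset.mem_univ _, h⟩⟩
  have hmax : ∀ A : Finset (S × S), A.sup (lv y) ≠ 0 → ∃ q ∈ A, lv y q = A.sup (lv y) := by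
    intro A hA
    have hne : A.Nonempty := by
      rw [Finset.nonempty_iff_ne_empty]
      rintro rfl
      exact hA Finset.sup_empty
    obtain ⟨q, hq, hq2⟩ := Finset.exists_mem_eq_sup A hne (lv y)
    exact ⟨q, hq, hq2.symm⟩
  refine ⟨fun P => (XS P).sup (lv y), a, W, ?_, ?_⟩
  · intro P
    refine Finset.sup_le fun q _ => ?_
    exact (hlv q).trans (hL _)
  constructor
  · intro s s' h
    exact hx.ok s s' ((hU s s').1 h)
  · intro s hs
    constructor
    · have h0 : (Finset.univ : Finset S).sup (lv fun s' => y (s, s')) = 0 := by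
        rw [← Nat.le_zero]
        refine Finset.sup_le fun s' _ => ?_
        have := hlv (s, s')
        rw [hs] at this
        exact this
      have h1 := sum_toC_fin (fun s' => y (s, s')) Finset.univ h0
      simp only [hy] at h1
      rw [hx.sum s] at h1
      have h2 : toC (m s) = ((fp m s : ℕ) : Cardinal.{0}) := by
        have hs' := hs
        unfold lv at hs'
        unfold fp
        rcases hm : m s with n | k
        · rfl
        · rw [hm] at hs'
          exact absurd hs' (Nat.succ_ne_zero _)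
      rw [h2] at h1
      have h3 : fp m s = ∑ s', fp (fun s' => y (s, s')) s' := by exact_mod_cast h1
      rw [h3]
      rfl
    · rintro s' κ ⟨h1, h2⟩
      have := hlv (s, s')
      rw [h2, hs] at this
      exact h1 (Nat.le_zero.1 this)
  · intro s hs
    obtain ⟨k, hk⟩ := Nat.exists_eq_succ_of_ne_zero hs
    have hm : toC (m s) = Cardinal.aleph k := by
      have hs' := hk
      unfold lv at hs'
      rcases hm : m s with n | k'
      · rw [hm] at hs'
        exact absurd hs' (Nat.succ_ne_zero _).symm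
      · rw [hm] at hs'
        have : k' = k := Nat.succ_injective hs'
        rw [this]
        rfl
    have hsum := hx.sum s
    simp only [hm] at hsum
    have e1 : ∑ s', x s s' = ∑ s', toC ((fun s' => y (s, s')) s') := by
      simp only [hy]
    rw [e1] at hsum
    have hne : (Finset.univ : Finset S).sup (lv fun s' => y (s, s')) = k + 1 := by
      rcases hA : (Finset.univ : Finset S).sup (lv fun s' => y (s, s')) with _ | j
      · rw [sum_toC_fin _ _ hA] at hsum
        have h1 := aleph0_le_aleph (k : Ordinal)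
        rw [← hsum] at h1
        exact absurd h1 (not_le.2 natCast_lt_aleph0)
      · rw [sum_toC_inf _ _ hA] at hsum
        have h1 : (j : Ordinal) = k := aleph.injective hsum
        have h2 : j = k := by exact_mod_cast h1
        rw [h2]
    have : (Finset.univ : Finset S).Nonempty := ⟨s, Finset.mem_univ _⟩
    obtain ⟨s', _, hs'⟩ := Finset.exists_mem_eq_sup _ this (lv fun s' => y (s, s'))
    refine ⟨s', ?_, ?_⟩
    · exact hs
    · rw [hk, ← Nat.add_one, ← hne, hs']
      rfl
  · rintro s s' κ ⟨h1, h2⟩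
    exact ⟨Nat.one_le_iff_ne_zero.2 h1, by rw [← h2]; exact hlv (s, s')⟩
  · rintro s s' κ ⟨h1, h2⟩ P (hP | hP)
    · rw [← h2]
      exact Finset.le_sup (f := lv y) (hmemX P s s' hP)
    · show κ ≤ (XS P).sup (lv y)
      rw [← h2, (hbal P).1]
      exact Finset.le_sup (f := lv y) (hmemY P s s' hP)
  · intro P hP
    have h1 := (hbal P).2 hP
    rw [Finset.sum_product, Finset.sum_product] at h1
    exact h1
  · intro P hP
    constructor
    · obtain ⟨q, hq, hq2⟩ := hmax _ hP
      refine ⟨q.1, q.2, ⟨hP, hq2⟩, ?_⟩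
      exact (Finset.mem_filter.1 (Finset.mem_product.1 hq).2).2
    · have hP' : (YS P).sup (lv y) ≠ 0 := by
        rw [← (hbal P).1]
        exact hP
      obtain ⟨q, hq, hq2⟩ := hmax _ hP'
      refine ⟨q.1, q.2, ⟨hP, ?_⟩, ?_⟩
      · show lv y q = (XS P).sup (lv y)
        rw [hq2, (hbal P).1]
      · exact (Finset.mem_filter.1 (Finset.mem_product.1 hq).2).2
  · intro P
    simp only [hU]
    exact hx.ne P
  · have e1 : (fun p => decide (∃ s s', Used a W s s' ∧ Q.mb s' p = true ∧ Q.mb s p = false)) =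
        fun p => decide (∃ s s', x s s' ≠ 0 ∧ Q.mb s' p = true ∧ Q.mb s p = false) := by
      funext p
      rw [decide_eq_decide]
      simp only [hU]
    have e2 : (fun p => decide (∃ s s', Used a W s s' ∧ Q.mb s p = true ∧ Q.mb s' p = false)) =
        fun p => decide (∃ s s', x s s' ≠ 0 ∧ Q.mb s p = true ∧ Q.mb s' p = false) := by
      funext p
      rw [decide_eq_decide]
      simp only [hU]
    rw [e1, e2]
    exact hx.pref

end Pool.Agent.Lib.MP_bb9e9d_lc
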