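import Pool.Agent.Lib.MP_bb9e9d_lc.Abs.A6

/-! # From uses to cardinals -/

namespace Pool.Agent.Lib.MP_bb9e9d_lc

open Cardinal

variable {N : ℕ} {S : Type} [Fintype S]

open Classical in
/-- the cardinals -/
private noncomputable def A7X (m : S → ℕ ⊕ ℕ) (a : S → S → ℕ) (W : S → S → ℕ → Prop) (s s' : S) :
    Cardinal.{0} :=
  (a s s' : Cardinal.{0}) + ∑ κ ∈ Finset.range (lv m s + 1),
    if W s s' κ then Cardinal.aleph ((κ - 1 : ℕ) : Ordinal.{0}) else 0

private theorem A7_sum_le {α : Type*} (A : Finset α) (f : α → Cardinal.{0}) {c : Cardinal.{0}}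
    (hc : ℵ₀ ≤ c) (h : ∀ x ∈ A, f x ≤ c) : ∑ x ∈ A, f x ≤ c :=
  Finset.sum_induction f (fun y => y ≤ c) (fun _ _ ha hb => Cardinal.add_le_of_le hc ha hb)
    zero_le h

private theorem A7_le_sum {α : Type*} (A : Finset α) (f : α → Cardinal.{0}) {x : α} (hx : x ∈ A) :
    f x ≤ ∑ x ∈ A, f x :=
  Finset.single_le_sum (fun _ _ => zero_le) hx

omit [Fintype S] in
private theorem A7X_upper {m : S → ℕ ⊕ ℕ} {a : S → S → ℕ} {W : S → S → ℕ → Prop} {s s' : S} {K : ℕ}
    (h : ∀ κ, W s s' κ → κ ≤ K) :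
    A7X m a W s s' ≤ Cardinal.aleph ((K - 1 : ℕ) : Ordinal.{0}) := by
  classical
  unfold A7X
  refine Cardinal.add_le_of_le (Cardinal.aleph0_le_aleph _) ?_ ?_
  · exact (Cardinal.natCast_lt_aleph0).le.trans (Cardinal.aleph0_le_aleph _)
  · refine A7_sum_le _ _ (Cardinal.aleph0_le_aleph _) fun κ _ => ?_
    split_ifs with hW
    · rw [Cardinal.aleph_le_aleph]
      have h1 := h κ hW
      exact_mod_cast Nat.sub_le_sub_right h1 1
    · exact zero_le

omit [Fintype S] in
private theorem A7X_lower {m : S → ℕ ⊕ ℕ} {a : S → S → ℕ} {W : S → S → ℕ → Prop} {s s' : S} {K : ℕ}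
    (h : W s s' K) (hK : K ≤ lv m s) :
    Cardinal.aleph ((K - 1 : ℕ) : Ordinal.{0}) ≤ A7X m a W s s' := by
  classical
  unfold A7X
  refine le_trans ?_ le_add_self
  refine le_trans ?_ (A7_le_sum (Finset.range (lv m s + 1))
    (fun κ => if W s s' κ then Cardinal.aleph ((κ - 1 : ℕ) : Ordinal.{0}) else 0)
    (Finset.mem_range.2 (Nat.lt_succ_iff.2 hK)))
  rw [if_pos h]

omit [Fintype S] in
private theorem A7X_fin {m : S → ℕ ⊕ ℕ} {a : S → S → ℕ} {W : S → S → ℕ → Prop} {s s' : S}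
    (h : ∀ κ, ¬ W s s' κ) : A7X m a W s s' = (a s s' : Cardinal.{0}) := by
  classical
  unfold A7X
  rw [Finset.sum_eq_zero fun κ _ => if_neg (h κ), add_zero]

private theorem A7X_ne_zero {m : S → ℕ ⊕ ℕ} {a : S → S → ℕ} {W : S → S → ℕ → Prop}
    (hle : ∀ s s' κ, W s s' κ → κ ≤ lv m s) (s s' : S) :
    A7X m a W s s' ≠ 0 ↔ Used a W s s' := by
  constructor
  · intro h
    by_contra hn
    unfold Used at hn
    push Not at hn
    apply h
    rw [A7X_fin hn.2, hn.1, Nat.cast_zero]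
  · rintro (h | ⟨κ, h⟩) h0
    · classical
      unfold A7X at h0
      rw [add_eq_zero] at h0
      exact h (by exact_mod_cast h0.1)
    · have h1 := A7X_lower (a := a) h (hle s s' κ h)
      rw [h0] at h1
      have h2 := Cardinal.aleph_pos ((κ - 1 : ℕ) : Ordinal.{0})
      exact absurd h1 (not_le.2 h2)

/-- the two sums over a set of target states -/
private theorem A7_bal_inf {m : S → ℕ ⊕ ℕ} {a : S → S → ℕ} {W : S → S → ℕ → Prop}
    (hle : ∀ s s' κ, W s s' κ → κ ≤ lv m s) (p : S → Bool) {K : ℕ}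
    (hu : ∀ s s' κ, W s s' κ → p s' = true → κ ≤ K)
    (hl : ∃ s s', W s s' K ∧ p s' = true) :
    ∑ s, ∑ s' with p s' = true, A7X m a W s s' = Cardinal.aleph ((K - 1 : ℕ) : Ordinal.{0}) := by
  refine le_antisymm ?_ ?_
  · refine A7_sum_le _ _ (Cardinal.aleph0_le_aleph _) fun s _ =>
      A7_sum_le _ _ (Cardinal.aleph0_le_aleph _) fun s' hs' => ?_
    exact A7X_upper fun κ hκ => hu s s' κ hκ (Finset.mem_filter.1 hs').2
  · obtain ⟨s, s', hW, hp⟩ := hl
    refine (A7X_lower (a := a) hW (hle s s' K hW)).trans ?_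
    refine (A7_le_sum (Finset.univ.filter fun s' => p s' = true) (fun s' => A7X m a W s s')
      (Finset.mem_filter.2 ⟨Finset.mem_univ _, hp⟩)).trans ?_
    exact A7_le_sum Finset.univ (fun s => ∑ s' with p s' = true, A7X m a W s s')
      (Finset.mem_univ s)

private theorem A7_bal_fin {m : S → ℕ ⊕ ℕ} {a : S → S → ℕ} {W : S → S → ℕ → Prop} (p : S → Bool)
    (h : ∀ s s' κ, p s' = true → ¬ W s s' κ) :
    ∑ s, ∑ s' with p s' = true, A7X m a W s s' =
      ((∑ s, ∑ s' with p s' = true, a s s' : ℕ) : Cardinal.{0}) := by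
  push_cast
  refine Finset.sum_congr rfl fun s _ => Finset.sum_congr rfl fun s' hs' => ?_
  exact A7X_fin fun κ => h s s' κ (Finset.mem_filter.1 hs').2

/-- Proof: `x s s' = a s s' + ∑ ℵ_{κ-1}` over the (finitely many) `κ ≤ lv m s` with `W s s' κ`.  For
`lv m s = 0` the sum over `s'` is `fp m s`; otherwise all summands are at most `toC (m s) =
ℵ_{lv m s - 1}` and one of them is equal to it.  For `ℓ P = 0` no `W s s' κ` has `xb s' P` or
`yb s' P` (`alw`, `1 ≤ κ`), so both sums are finite and equal by `bal0`.  For `ℓ P = κ ≠ 0` all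
uses that touch `P` have a level at most `κ` and one has the level `κ`, so both sums are
`ℵ_{κ-1}`. -/
theorem jcard_of_aw (Q : Prob N S) (m : S → ℕ ⊕ ℕ) {ℓ : Fin N → ℕ} {a : S → S → ℕ}
    {W : S → S → ℕ → Prop} (h : AW Q m ℓ a W) : JCard Q fun s => toC (m s) := by
  classical
  have hle : ∀ s s' κ, W s s' κ → κ ≤ lv m s := fun s s' κ hW => (h.le s s' κ hW).2
  refine ⟨A7X m a W, ?_, ?_, ?_, ?_, ?_⟩
  · intro s
    by_cases h0 : lv m s = 0
    · obtain ⟨h1, h2⟩ := h.fin s h0
      rw [Finset.sum_congr rfl fun s' _ => A7X_fin (fun κ => h2 s' κ), ← Nat.cast_sum, h1]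
      rcases hm : m s with n | k
      · simp [fp, toC, hm]
      · simp [lv, hm] at h0
    · obtain ⟨s', hs'⟩ := h.top s h0
      rcases hm : m s with n | k
      · simp [lv, hm] at h0
      · have hlv : lv m s = k + 1 := by simp [lv, hm]
        rw [hlv] at hs'
        show _ = Cardinal.aleph (k : Ordinal.{0})
        refine le_antisymm ?_ ?_
        · refine A7_sum_le _ _ (Cardinal.aleph0_le_aleph _) fun t _ => ?_
          refine A7X_upper (K := k + 1) fun κ hκ => ?_
          have := hle s t κ hκ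
          omega
        · refine le_trans ?_ (A7_le_sum Finset.univ (fun t => A7X m a W s t) (Finset.mem_univ s'))
          exact A7X_lower (K := k + 1) hs' (by omega)
  · intro s s' hx
    exact h.ok s s' ((A7X_ne_zero hle s s').1 hx)
  · intro P
    by_cases h0 : ℓ P = 0
    · rw [A7_bal_fin (fun s' => Q.xb s' P), A7_bal_fin (fun s' => Q.yb s' P)]
      · exact congrArg _ (h.bal0 P h0)
      · intro s s' κ hp hW
        have h1 := h.alw s s' κ hW P (Or.inr hp)
        have h2 := (h.le s s' κ hW).1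
        omega
      · intro s s' κ hp hW
        have h1 := h.alw s s' κ hW P (Or.inl hp)
        have h2 := (h.le s s' κ hW).1
        omega
    · obtain ⟨h1, h2⟩ := h.hit P h0
      rw [A7_bal_inf hle (fun s' => Q.xb s' P) (fun s s' κ hW hp => h.alw s s' κ hW P (Or.inl hp)) h1,
        A7_bal_inf hle (fun s' => Q.yb s' P) (fun s s' κ hW hp => h.alw s s' κ hW P (Or.inr hp)) h2]
  · intro P
    simp only [A7X_ne_zero hle]
    exact h.ne P
  · simp only [A7X_ne_zero hle]
    exact h.pref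

end Pool.Agent.Lib.MP_bb9e9d_lc
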