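import Pool.Agent.Lib.MP_bb9e9d_lc.Abs.A6

/-! # Uses and reachability -/

namespace Pool.Agent.Lib.MP_bb9e9d_lc

variable {N : ℕ} {S : Type} [Fintype S]

/-- a flag of a vector -/
private def A8prj (i : Fin 6) (p : Fin N) : Vc N →+ Fl :=
  ((Pi.evalAddMonoidHom (fun _ : Fin N => Fl) p).comp
    (Pi.evalAddMonoidHom (fun _ : Fin 6 => Fin N → Fl) i)).comp (AddMonoidHom.snd _ _)

/-- an entry of a vector -/
private def A8ent (P : Fin N) : Vc N →+ ℤ :=
  (Pi.evalAddMonoidHom (fun _ : Fin N => ℤ) P).comp (AddMonoidHom.fst _ _)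

open Classical in
/-- the multiplicities of the elements -/
private noncomputable def A8a (m : S → ℕ ⊕ ℕ) (a : S → S → ℕ) (s s' : S) : ℕ :=
  if lv m s = 0 then a s s' else 0

open Classical in
/-- the multiplicities of the free generators -/
private noncomputable def A8b (L : ℕ) (m : S → ℕ ⊕ ℕ) (a : S → S → ℕ) (W : S → S → ℕ → Prop)
    (γ : S × S × Fin (L + 1)) : ℕ :=
  if (γ.2.2 : ℕ) = 0 then (if lv m γ.1 = 0 then 0 else a γ.1 γ.2.1)
  else (if W γ.1 γ.2.1 γ.2.2 then 1 else 0)

private lemma A8_sum_split (L : ℕ) (f : Fin (L + 1) → ℤ) (h : ∀ κ : Fin (L + 1), (κ : ℕ) ≠ 0 → f κ = 0) :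
    ∑ κ, f κ = f 0 := by
  refine Finset.sum_eq_single (0 : Fin (L + 1)) (fun κ _ hκ => h κ ?_) (fun h0 => ?_)
  · intro h1
    exact hκ (Fin.ext h1)
  · exact absurd (Finset.mem_univ _) h0

private lemma A8_flags (Q : Prob N S) (L : ℕ) (m : S → ℕ ⊕ ℕ) (hL : ∀ s, lv m s ≤ L)
    {ℓ : Fin N → ℕ} {a : S → S → ℕ} {W : S → S → ℕ → Prop}
    (h : AW Q m ℓ a W) (w : S → S) (hw : ∀ s, lv m s ≠ 0 → W s (w s) (lv m s))
    (i : Fin 6) (p : Fin N) :
    (A8prj i p ((∑ s, ∑ s', A8a m a s s' • ctr Q ℓ 0 s s' +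
        ∑ γ : S × S × Fin (L + 1), A8b L m a W γ • ctr Q ℓ γ.2.2 γ.1 γ.2.1) +
        ∑ s with lv m s ≠ 0, ctr Q ℓ (lv m s) s (w s))).b = true ↔
      (∃ s s', a s s' ≠ 0 ∧ (A8prj i p (ctr Q ℓ 0 s s')).b = true) ∨
        ∃ s s' κ, W s s' κ ∧ (A8prj i p (ctr Q ℓ κ s s')).b = true := by
  classical
  rw [map_add, map_add, map_sum, map_sum, map_sum, Fl.b_add, Fl.b_add, Bool.or_eq_true,
    Bool.or_eq_true, Fl.b_sum, Fl.b_sum, Fl.b_sum]
  constructor
  · rintro ((⟨s, -, hs⟩ | ⟨γ, -, hγ⟩) | ⟨s, hs, hs2⟩)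
    · rw [map_sum, Fl.b_sum] at hs
      obtain ⟨s', -, hs'⟩ := hs
      rw [map_nsmul, Fl.b_nsmul, Bool.and_eq_true, decide_eq_true_iff] at hs'
      refine Or.inl ⟨s, s', ?_, hs'.2⟩
      intro h0
      apply hs'.1
      unfold A8a
      rw [h0]
      split_ifs <;> rfl
    · rw [map_nsmul, Fl.b_nsmul, Bool.and_eq_true, decide_eq_true_iff] at hγ
      obtain ⟨h1, h2⟩ := hγ
      unfold A8b at h1
      by_cases h0 : (γ.2.2 : ℕ) = 0
      · rw [if_pos h0] at h1
        rw [h0] at h2
        refine Or.inl ⟨γ.1, γ.2.1, ?_, h2⟩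
        intro h3
        apply h1
        rw [h3]
        split_ifs <;> rfl
      · rw [if_neg h0] at h1
        refine Or.inr ⟨γ.1, γ.2.1, γ.2.2, ?_, h2⟩
        by_contra h3
        apply h1
        rw [if_neg h3]
    · have h0 : lv m s ≠ 0 := (Finset.mem_filter.1 hs).2
      exact Or.inr ⟨s, w s, lv m s, hw s h0, hs2⟩
  · rintro (⟨s, s', h1, h2⟩ | ⟨s, s', κ, h1, h2⟩)
    · by_cases h0 : lv m s = 0
      · refine Or.inl (Or.inl ⟨s, Finset.mem_univ _, ?_⟩)
        rw [map_sum, Fl.b_sum]
        refine ⟨s', Finset.mem_univ _, ?_⟩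
        rw [map_nsmul, Fl.b_nsmul, Bool.and_eq_true, decide_eq_true_iff]
        refine ⟨?_, h2⟩
        unfold A8a
        rw [if_pos h0]
        exact h1
      · refine Or.inl (Or.inr ⟨(s, s', 0), Finset.mem_univ _, ?_⟩)
        rw [map_nsmul, Fl.b_nsmul, Bool.and_eq_true, decide_eq_true_iff]
        refine ⟨?_, h2⟩
        unfold A8b
        simp only [Fin.val_zero, if_true, if_neg h0]
        exact h1
    · have h3 := h.le s s' κ h1
      have h4 : κ < L + 1 := Nat.lt_succ_of_le (h3.2.trans (hL s))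
      refine Or.inl (Or.inr ⟨(s, s', ⟨κ, h4⟩), Finset.mem_univ _, ?_⟩)
      rw [map_nsmul, Fl.b_nsmul, Bool.and_eq_true, decide_eq_true_iff]
      refine ⟨?_, h2⟩
      have h5 : κ ≠ 0 := by omega
      unfold A8b
      simp only [if_neg h5, if_pos h1]
      exact one_ne_zero

/-- Proof: multiplicities `a s s'` for `lv m s = 0` (and `0` otherwise), free generators `(s, s', 0)`
with multiplicity `a s s'` for `lv m s ≠ 0`, free generators `(s, s', κ)` with multiplicity one for
`W s s' κ`, `1 ≤ κ ≤ L`.  `e s` is the contribution of one `s'` with `W s s' (lv m s)`.  The vector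
part of the sum at `P` is zero: if `ℓ P ≠ 0` every contribution is zero there; if `ℓ P = 0` by
`bal0`.  The flags of the sum (`Fl.b_sum`, `Fl.b_nsmul`) are those of the used pairs. -/
theorem reach_of_aw (Q : Prob N S) (L : ℕ) (m : S → ℕ ⊕ ℕ) (hL : ∀ s, lv m s ≤ L)
    {ℓ : Fin N → Fin (L + 1)} {a : S → S → ℕ} {W : S → S → ℕ → Prop}
    (h : AW Q m (fun P => (ℓ P : ℕ)) a W) :
    ∃ u ∈ (rp Q L m fun P => (ℓ P : ℕ)).Reach (fp m), u ∈ goal Q m fun P => (ℓ P : ℕ) := by
  classical
  have hw' : ∀ s, ∃ s', lv m s ≠ 0 → W s s' (lv m s) := by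
    intro s
    by_cases h0 : lv m s = 0
    · exact ⟨s, fun h1 => absurd h0 h1⟩
    · obtain ⟨s', hs'⟩ := h.top s h0
      exact ⟨s', fun _ => hs'⟩
  choose w hw using hw'
  set l : Fin N → ℕ := fun P => (ℓ P : ℕ) with hl
  refine ⟨∑ s, ∑ s', A8a m a s s' • ctr Q l 0 s s' +
    ∑ γ : S × S × Fin (L + 1), A8b L m a W γ • ctr Q l γ.2.2 γ.1 γ.2.1, ?_, ?_⟩
  · refine ⟨A8a m a, A8b L m a W, ?_, ?_, ?_, rfl⟩
    · intro s s' hs
      refine h.ok s s' (Or.inl ?_)
      intro h0
      apply hs
      unfold A8a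
      rw [h0]
      split_ifs <;> rfl
    · intro s
      unfold A8a
      by_cases h0 : lv m s = 0
      · simp only [if_pos h0]
        exact (h.fin s h0).1
      · simp only [if_neg h0, Finset.sum_const_zero]
        rcases hm : m s with n | k
        · simp [lv, hm] at h0
        · simp [fp, hm]
    · intro γ hγ
      unfold A8b at hγ
      by_cases h0 : (γ.2.2 : ℕ) = 0
      · rw [if_pos h0] at hγ
        have h1 : lv m γ.1 ≠ 0 := by
          intro h2
          apply hγ
          rw [if_pos h2]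
        rw [if_neg h1] at hγ
        have h3 := h.ok _ _ (Or.inl hγ)
        refine ⟨h3.1, h3.2, h1, ?_, ?_⟩
        · rw [h0]
          exact Nat.zero_le _
        · intro P _
          rw [h0]
          exact Nat.zero_le _
      · rw [if_neg h0] at hγ
        have h1 : W γ.1 γ.2.1 γ.2.2 := by
          by_contra h2
          apply hγ
          rw [if_neg h2]
        have h3 := h.ok _ _ (Or.inr ⟨_, h1⟩)
        have h4 := h.le _ _ _ h1
        refine ⟨h3.1, h3.2, ?_, h4.2, h.alw _ _ _ h1⟩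
        omega
  · refine ⟨?_, fun s => ctr Q l (lv m s) s (w s), ?_, ?_⟩
    · funext P
      have hv : ∀ v : Vc N, v.1 P = A8ent P v := fun _ => rfl
      rw [hv, Pi.zero_apply, map_add, map_sum, map_sum]
      simp only [map_sum, map_nsmul]
      rw [Fintype.sum_prod_type]
      simp only [Fintype.sum_prod_type]
      rw [← Finset.sum_add_distrib]
      simp only [← Finset.sum_add_distrib]
      have hent : ∀ κ s s', A8ent P (ctr Q l κ s s') =
          if l P = 0 ∧ κ = 0 then bz (Q.xb s' P) - bz (Q.yb s' P) else 0 := fun _ _ _ => rfl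
      by_cases h0 : l P = 0
      · have hterm : ∀ s s', (A8a m a s s' • A8ent P (ctr Q l 0 s s') +
            ∑ κ : Fin (L + 1), A8b L m a W (s, s', κ) • A8ent P (ctr Q l κ s s')) =
            (a s s' : ℤ) * (bz (Q.xb s' P) - bz (Q.yb s' P)) := by
          intro s s'
          rw [A8_sum_split L]
          · rw [hent, hent]
            simp only [Fin.val_zero, h0, and_self, if_true]
            unfold A8a A8b
            simp only [Fin.val_zero, if_true]
            split_ifs <;> simp
          · intro κ hκ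
            rw [hent, if_neg (fun h => hκ h.2), smul_zero]
        simp only [hterm]
        have hb := h.bal0 P h0
        have hb' : (∑ s, ∑ s' with Q.xb s' P = true, (a s s' : ℤ)) =
            ∑ s, ∑ s' with Q.yb s' P = true, (a s s' : ℤ) := by exact_mod_cast hb
        have e1 : ∀ (f : S → Fin N → Bool), (∑ s, ∑ s' with f s' P = true, (a s s' : ℤ)) =
            ∑ s, ∑ s', (a s s' : ℤ) * bz (f s' P) := by
          intro f
          refine Finset.sum_congr rfl fun s _ => ?_
          rw [Finset.sum_filter]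
          refine Finset.sum_congr rfl fun s' _ => ?_
          unfold bz
          split_ifs <;> simp
        rw [e1 Q.xb, e1 Q.yb] at hb'
        simp only [mul_sub, Finset.sum_sub_distrib]
        rw [hb', sub_self]
      · have hz : ∀ κ s s', A8ent P (ctr Q l κ s s') = 0 := by
          intro κ s s'
          rw [hent, if_neg (fun h => h0 h.1)]
        simp [hz]
    · intro s h0
      have h1 := hw s h0
      have h2 := h.ok _ _ (Or.inr ⟨_, h1⟩)
      exact ⟨w s, h2.1, h2.2, h.alw _ _ _ h1, rfl⟩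
    · have key := A8_flags Q L m hL h w hw
      have hbool : ∀ {x : Bool} {q : Prop} [Decidable q], (x = true ↔ q) → x = decide q := by
        intro x q _ hx
        by_cases hq : q
        · rw [decide_eq_true hq]
          exact hx.2 hq
        · rw [decide_eq_false hq]
          rw [← Bool.not_eq_true]
          exact fun h => hq (hx.1 h)
      have hind : ∀ (i : Fin 6) (p : Fin N) (φ : S → S → Bool),
          (∀ κ s s', (A8prj i p (ctr Q l κ s s')).b = φ s s') →
          ((A8prj i p ((∑ s, ∑ s', A8a m a s s' • ctr Q l 0 s s' +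
            ∑ γ : S × S × Fin (L + 1), A8b L m a W γ • ctr Q l γ.2.2 γ.1 γ.2.1) +
            ∑ s with lv m s ≠ 0, ctr Q l (lv m s) s (w s))).b = true ↔
          ∃ s s', Used a W s s' ∧ φ s s' = true) := by
        intro i p φ hφ
        rw [key]
        simp only [hφ]
        constructor
        · rintro (⟨s, s', h1, h2⟩ | ⟨s, s', κ, h1, h2⟩)
          · exact ⟨s, s', Or.inl h1, h2⟩
          · exact ⟨s, s', Or.inr ⟨κ, h1⟩, h2⟩
        · rintro ⟨s, s', h1 | ⟨κ, h1⟩, h2⟩
          · exact Or.inl ⟨s, s', h1, h2⟩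
          · exact Or.inr ⟨s, s', κ, h1, h2⟩
      refine ⟨?_, ?_, ?_⟩
      · have e1 : ∀ p, (A8prj 0 p ((∑ s, ∑ s', A8a m a s s' • ctr Q l 0 s s' +
            ∑ γ : S × S × Fin (L + 1), A8b L m a W γ • ctr Q l γ.2.2 γ.1 γ.2.1) +
            ∑ s with lv m s ≠ 0, ctr Q l (lv m s) s (w s))).b =
            decide (∃ s s', Used a W s s' ∧ Q.mb s' p = true ∧ Q.mb s p = false) := by
          intro p
          apply hbool
          rw [hind 0 p (fun s s' => Q.mb s' p && !Q.mb s p) (fun _ _ _ => rfl)]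
          simp only [Bool.and_eq_true, Bool.not_eq_true']
        have e2 : ∀ p, (A8prj 1 p ((∑ s, ∑ s', A8a m a s s' • ctr Q l 0 s s' +
            ∑ γ : S × S × Fin (L + 1), A8b L m a W γ • ctr Q l γ.2.2 γ.1 γ.2.1) +
            ∑ s with lv m s ≠ 0, ctr Q l (lv m s) s (w s))).b =
            decide (∃ s s', Used a W s s' ∧ Q.mb s p = true ∧ Q.mb s' p = false) := by
          intro p
          apply hbool
          rw [hind 1 p (fun s s' => Q.mb s p && !Q.mb s' p) (fun _ _ _ => rfl)]
          simp only [Bool.and_eq_true, Bool.not_eq_true']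
        have e1' := funext e1
        have e2' := funext e2
        have hp := h.pref
        rw [← e1', ← e2'] at hp
        exact hp
      · intro P
        have e1 := hind 2 P (fun _ s' => Q.ob s' P) (fun _ _ _ => rfl)
        have e2 := hind 3 P (fun _ s' => Q.ib s' P) (fun _ _ _ => rfl)
        rw [Bool.eq_iff_iff]
        exact (e1.trans (h.ne P)).trans e2.symm
      · intro P hP
        obtain ⟨⟨s, s', h1, h2⟩, t, t', h3, h4⟩ := h.hit P hP
        constructor
        · refine (key 4 P).2 (Or.inr ⟨s, s', l P, h1, ?_⟩)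
          change (Q.xb s' P && decide (l P ≠ 0 ∧ l P = l P)) = true
          rw [h2]
          simpa using hP
        · refine (key 5 P).2 (Or.inr ⟨t, t', l P, h3, ?_⟩)
          change (Q.yb t' P && decide (l P ≠ 0 ∧ l P = l P)) = true
          rw [h4]
          simpa using hP

end Pool.Agent.Lib.MP_bb9e9d_lc
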