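import Pool.Agent.Lib.MP_bb9e9d_lc.Abs.A6

/-! # Reachability and uses -/

namespace Pool.Agent.Lib.MP_bb9e9d_lc

variable {N : ℕ} {S : Type} [Fintype S]

private lemma a9_smul_flag (n : ℕ) (v : Vc N) (i : Fin 6) (p : Fin N) :
    ((n • v).2 i p).b = true ↔ n ≠ 0 ∧ (v.2 i p).b = true := by
  have : ((n • v).2 i p) = n • (v.2 i p) := rfl
  rw [this, Fl.b_nsmul]
  simp

private lemma a9_sum_flag {α : Type*} (A : Finset α) (f : α → Vc N) (i : Fin 6) (p : Fin N) :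
    ((∑ x ∈ A, f x).2 i p).b = true ↔ ∃ x ∈ A, ((f x).2 i p).b = true := by
  have : ((∑ x ∈ A, f x).2 i p) = ∑ x ∈ A, (f x).2 i p := by
    rw [Prod.snd_sum, Finset.sum_apply, Finset.sum_apply]
  rw [this, Fl.b_sum]

private lemma a9_add_flag (v w : Vc N) (i : Fin 6) (p : Fin N) :
    ((v + w).2 i p).b = true ↔ (v.2 i p).b = true ∨ (w.2 i p).b = true := by
  have : ((v + w).2 i p) = v.2 i p + w.2 i p := rfl
  rw [this, Fl.b_add]
  simp

/-- Proof: let `a₀, b` be the multiplicities of `u` and choose for each `s` with `lv m s ≠ 0` a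
state `σ s` that gives `e s`.  `a s s' = a₀ s s'` if `lv m s = 0`, else `b (s, s', 0)`;
`W s s' κ` iff (`1 ≤ κ ≤ L` and `b (s, s', κ) ≠ 0`) or (`κ = lv m s ≠ 0` and `s' = σ s`).  If
`lv m s ≠ 0` then `fp m s = 0`, so `a₀ s s' = 0`. -/
theorem aw_of_reach (Q : Prob N S) (L : ℕ) (m : S → ℕ ⊕ ℕ)
    {ℓ : Fin N → Fin (L + 1)}
    (h : ∃ u ∈ (rp Q L m fun P => (ℓ P : ℕ)).Reach (fp m), u ∈ goal Q m fun P => (ℓ P : ℕ)) :
    ∃ (a : S → S → ℕ) (W : S → S → ℕ → Prop), AW Q m (fun P => (ℓ P : ℕ)) a W := by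
  classical
  obtain ⟨u, ⟨a₀, b, hok, hsum, hgok, hu⟩, hu1, e, he, hF⟩ := h
  have hσ : ∀ s, ∃ s', lv m s ≠ 0 → Q.mv s s' ∧ Q.loc s' ∧
      alw Q (fun P => (ℓ P : ℕ)) (lv m s) s' ∧
      e s = ctr Q (fun P => (ℓ P : ℕ)) (lv m s) s s' := by
    intro s
    by_cases hs : lv m s = 0
    · exact ⟨s, fun h => absurd hs h⟩
    · obtain ⟨s', h⟩ := he s hs
      exact ⟨s', fun _ => h⟩
  choose σ hσ using hσ
  have hfp : ∀ s, lv m s ≠ 0 → fp m s = 0 := by
    intro s hs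
    unfold lv at hs
    unfold fp
    split at hs
    · exact absurd rfl hs
    · rename_i k hk
      rfl
  have ha0 : ∀ s s', lv m s ≠ 0 → a₀ s s' = 0 := by
    intro s s' hs
    have h1 := hsum s
    rw [hfp s hs, Finset.sum_eq_zero_iff] at h1
    exact h1 s' (Finset.mem_univ _)
  have hb0 : ∀ s s' κ, lv m s = 0 → b (s, s', κ) = 0 := by
    intro s s' κ hs
    by_contra hb
    exact (hgok _ hb).2.2.1 hs
  let a : S → S → ℕ := fun s s' => if lv m s = 0 then a₀ s s' else b (s, s', 0)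
  let W : S → S → ℕ → Prop := fun s s' κ =>
    (∃ k : Fin (L + 1), (k : ℕ) = κ ∧ κ ≠ 0 ∧ b (s, s', k) ≠ 0) ∨
      (lv m s ≠ 0 ∧ κ = lv m s ∧ s' = σ s)
  have ha_eq : ∀ s s', a s s' = a₀ s s' + b (s, s', 0) := by
    intro s s'
    by_cases hs : lv m s = 0
    · simp [a, hs, hb0 s s' 0 hs]
    · simp [a, hs, ha0 s s' hs]
  -- description of the flags
  have hflag : ∀ (i : Fin 6) (p : Fin N),
      (((u + ∑ s with lv m s ≠ 0, e s).2 i p).b = true ↔
        ∃ s s' κ, ((κ = 0 ∧ a s s' ≠ 0) ∨ W s s' κ) ∧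
          ((ctr Q (fun P => (ℓ P : ℕ)) κ s s').2 i p).b = true) := by
    intro i p
    rw [hu, a9_add_flag, a9_add_flag, a9_sum_flag, a9_sum_flag, a9_sum_flag]
    constructor
    · rintro ((⟨s, -, h⟩ | ⟨γ, -, h⟩) | ⟨s, hs, h⟩)
      · rw [a9_sum_flag] at h
        obtain ⟨s', -, h⟩ := h
        rw [a9_smul_flag] at h
        refine ⟨s, s', 0, Or.inl ⟨rfl, ?_⟩, h.2⟩
        rw [ha_eq]
        have := h.1
        omega
      · rw [a9_smul_flag] at h
        obtain ⟨s, s', k⟩ := γ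
        by_cases hk : (k : ℕ) = 0
        · have hk' : k = 0 := Fin.ext (by simpa using hk)
          subst hk'
          refine ⟨s, s', 0, Or.inl ⟨rfl, ?_⟩, h.2⟩
          rw [ha_eq]
          have := h.1
          omega
        · exact ⟨s, s', k, Or.inr (Or.inl ⟨k, rfl, hk, h.1⟩), h.2⟩
      · have hs' : lv m s ≠ 0 := (Finset.mem_filter.1 hs).2
        refine ⟨s, σ s, lv m s, Or.inr (Or.inr ⟨hs', rfl, rfl⟩), ?_⟩
        rw [(hσ s hs').2.2.2] at h
        exact h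
    · rintro ⟨s, s', κ, (⟨rfl, ha⟩ | ⟨k, rfl, hk, hb⟩ | ⟨hs, rfl, rfl⟩), h⟩
      · left
        rw [ha_eq] at ha
        by_cases h0 : a₀ s s' = 0
        · right
          refine ⟨(s, s', 0), Finset.mem_univ _, ?_⟩
          rw [a9_smul_flag]
          exact ⟨by omega, h⟩
        · left
          refine ⟨s, Finset.mem_univ _, ?_⟩
          rw [a9_sum_flag]
          refine ⟨s', Finset.mem_univ _, ?_⟩
          rw [a9_smul_flag]
          exact ⟨h0, h⟩
      · left; right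
        refine ⟨(s, s', k), Finset.mem_univ _, ?_⟩
        rw [a9_smul_flag]
        exact ⟨hb, h⟩
      · right
        refine ⟨s, Finset.mem_filter.2 ⟨Finset.mem_univ _, hs⟩, ?_⟩
        rw [(hσ s hs).2.2.2]
        exact h
  -- flags that do not depend on the level
  have hused : ∀ (i : Fin 6) (p : Fin N) (r : S → S → Bool),
      (∀ κ s s', ((ctr Q (fun P => (ℓ P : ℕ)) κ s s').2 i p).b = r s s') →
      (((u + ∑ s with lv m s ≠ 0, e s).2 i p).b = true ↔
        ∃ s s', Used a W s s' ∧ r s s' = true) := by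
    intro i p r hr
    rw [hflag]
    constructor
    · rintro ⟨s, s', κ, h1, h2⟩
      rw [hr] at h2
      refine ⟨s, s', ?_, h2⟩
      rcases h1 with ⟨-, h1⟩ | h1
      · exact Or.inl h1
      · exact Or.inr ⟨κ, h1⟩
    · rintro ⟨s, s', (h1 | ⟨κ, h1⟩), h2⟩
      · exact ⟨s, s', 0, Or.inl ⟨rfl, h1⟩, by rw [hr]; exact h2⟩
      · exact ⟨s, s', κ, Or.inr h1, by rw [hr]; exact h2⟩
  have hW : ∀ s s' κ, W s s' κ → Q.mv s s' ∧ Q.loc s' ∧ lv m s ≠ 0 ∧ κ ≠ 0 ∧ κ ≤ lv m s ∧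
      alw Q (fun P => (ℓ P : ℕ)) κ s' := by
    rintro s s' κ (⟨k, rfl, hk, hb⟩ | ⟨hs, rfl, rfl⟩)
    · obtain ⟨h1, h2, h3, h4, h5⟩ := hgok _ hb
      exact ⟨h1, h2, h3, hk, h4, h5⟩
    · obtain ⟨h1, h2, h3, h4⟩ := hσ s hs
      exact ⟨h1, h2, hs, hs, le_rfl, h3⟩
  refine ⟨a, W, ?_, ?_, ?_, ?_, ?_, ?_, ?_, ?_, ?_⟩
  · rintro s s' (h | ⟨κ, h⟩)
    · rw [ha_eq] at h
      by_cases h0 : a₀ s s' = 0
      · have hb : b (s, s', 0) ≠ 0 := by omega
        exact ⟨(hgok _ hb).1, (hgok _ hb).2.1⟩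
      · exact hok s s' h0
    · exact ⟨(hW s s' κ h).1, (hW s s' κ h).2.1⟩
  · intro s hs
    refine ⟨?_, fun s' κ h => (hW s s' κ h).2.2.1 hs⟩
    rw [← hsum s]
    refine Finset.sum_congr rfl fun s' _ => ?_
    simp [a, hs]
  · intro s hs
    exact ⟨σ s, Or.inr ⟨hs, rfl, rfl⟩⟩
  · intro s s' κ h
    have := hW s s' κ h
    exact ⟨Nat.one_le_iff_ne_zero.2 this.2.2.2.1, this.2.2.2.2.1⟩
  · intro s s' κ h
    exact (hW s s' κ h).2.2.2.2.2
  · intro P hP
    have h0 : u.1 P = 0 := by rw [hu1]; rfl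
    have hP' : ℓ P = 0 := Fin.ext (by simpa using hP)
    have hval : u.1 P = ∑ s, ∑ s', (a₀ s s' : ℤ) * (bz (Q.xb s' P) - bz (Q.yb s' P)) +
        ∑ γ : S × S × Fin (L + 1), (b γ : ℤ) *
          (if (γ.2.2 : ℕ) = 0 then bz (Q.xb γ.2.1 P) - bz (Q.yb γ.2.1 P) else 0) := by
      rw [hu, Prod.fst_add, Prod.fst_sum, Prod.fst_sum, Pi.add_apply, Finset.sum_apply,
        Finset.sum_apply]
      congr 1
      · refine Finset.sum_congr rfl fun s _ => ?_
        rw [Prod.fst_sum, Finset.sum_apply]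
        refine Finset.sum_congr rfl fun s' _ => ?_
        simp [rp, ctr, hP']
      · refine Finset.sum_congr rfl fun γ _ => ?_
        simp [rp, ctr, hP']
    have hγ : ∑ γ : S × S × Fin (L + 1), (b γ : ℤ) *
          (if (γ.2.2 : ℕ) = 0 then bz (Q.xb γ.2.1 P) - bz (Q.yb γ.2.1 P) else 0) =
        ∑ s, ∑ s', (b (s, s', 0) : ℤ) * (bz (Q.xb s' P) - bz (Q.yb s' P)) := by
      rw [Fintype.sum_prod_type]
      refine Finset.sum_congr rfl fun s _ => ?_
      rw [Fintype.sum_prod_type]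
      refine Finset.sum_congr rfl fun s' _ => ?_
      rw [Finset.sum_eq_single (0 : Fin (L + 1))]
      · simp
      · intro k _ hk
        have : (k : ℕ) ≠ 0 := fun h => hk (Fin.ext (by simpa using h))
        simp [this]
      · intro h
        exact absurd (Finset.mem_univ _) h
    rw [hγ] at hval
    have hsum2 : ∑ s, ∑ s', (a s s' : ℤ) * (bz (Q.xb s' P) - bz (Q.yb s' P)) = 0 := by
      rw [← h0, hval, ← Finset.sum_add_distrib]
      refine Finset.sum_congr rfl fun s _ => ?_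
      rw [← Finset.sum_add_distrib]
      refine Finset.sum_congr rfl fun s' _ => ?_
      rw [ha_eq]
      push_cast
      ring
    have hx : ∀ (r : S → Fin N → Bool), ((∑ s, ∑ s' with r s' P = true, a s s' : ℕ) : ℤ) =
        ∑ s, ∑ s', (a s s' : ℤ) * bz (r s' P) := by
      intro r
      push_cast
      refine Finset.sum_congr rfl fun s _ => ?_
      rw [Finset.sum_filter]
      refine Finset.sum_congr rfl fun s' _ => ?_
      cases r s' P <;> simp [bz]
    have hfin : ((∑ s, ∑ s' with Q.xb s' P = true, a s s' : ℕ) : ℤ) =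
        ((∑ s, ∑ s' with Q.yb s' P = true, a s s' : ℕ) : ℤ) := by
      rw [hx Q.xb, hx Q.yb, ← sub_eq_zero, ← Finset.sum_sub_distrib, ← hsum2]
      refine Finset.sum_congr rfl fun s _ => ?_
      rw [← Finset.sum_sub_distrib]
      refine Finset.sum_congr rfl fun s' _ => ?_
      ring
    exact_mod_cast hfin
  · intro P hP
    obtain ⟨h4, h5⟩ := hF.hit P hP
    constructor
    · rw [hflag] at h4
      obtain ⟨s, s', κ, h1, h2⟩ := h4
      have h2' : Q.xb s' P = true ∧ κ ≠ 0 ∧ (ℓ P : ℕ) = κ := by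
        simpa [ctr] using h2
      obtain ⟨hx, hκ, hκ2⟩ := h2'
      rcases h1 with ⟨h1, -⟩ | h1
      · exact absurd h1 hκ
      · exact ⟨s, s', by rw [hκ2]; exact h1, hx⟩
    · rw [hflag] at h5
      obtain ⟨s, s', κ, h1, h2⟩ := h5
      have h2' : Q.yb s' P = true ∧ κ ≠ 0 ∧ (ℓ P : ℕ) = κ := by
        simpa [ctr] using h2
      obtain ⟨hx, hκ, hκ2⟩ := h2'
      rcases h1 with ⟨h1, -⟩ | h1
      · exact absurd h1 hκ
      · exact ⟨s, s', by rw [hκ2]; exact h1, hx⟩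
  · intro P
    rw [← hused 2 P (fun _ s' => Q.ob s' P) (fun κ s s' => by simp [ctr]),
      ← hused 3 P (fun _ s' => Q.ib s' P) (fun κ s s' => by simp [ctr]), hF.ne P]
  · have h0 := hF.pref
    convert h0 using 2
    · rename_i p
      rw [Bool.eq_iff_iff, hused 0 p (fun s s' => Q.mb s' p && !Q.mb s p)
        (fun κ s s' => by simp [ctr]), decide_eq_true_iff]
      simp
    · rename_i p
      rw [Bool.eq_iff_iff, hused 1 p (fun s s' => Q.mb s p && !Q.mb s' p)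
        (fun κ s s' => by simp [ctr]), decide_eq_true_iff]
      simp

end Pool.Agent.Lib.MP_bb9e9d_lc
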