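import Pool.Agent.Lib.MP_bb9e9d_lc.Core.Basic

/-!
# Abstract circumscription problems

`Prob N S`: a finite set `S` of states; an interpretation is a map `c : Δ → S` (a configuration).
For each role `P : Fin N` the bits `ob, ib` say that the element has a successor / a predecessor,
and the bits `xb, yb` mark two sets of elements which must have the same cardinality.  `db s a`:
the element is the individual `a`.  `mb s p`: the element belongs to the minimized name `p`.
-/

namespace Pool.Agent.Lib.MP_bb9e9d_lc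

/-- The data of an abstract circumscription problem. -/
structure Prob (N : ℕ) (S : Type) : Type where
  /-- locally admissible states -/
  loc : S → Prop
  /-- the state of an element in `I` and in `J` agree on the fixed part -/
  mv : S → S → Prop
  /-- successor bits -/
  ob : S → Fin N → Bool
  /-- predecessor bits -/
  ib : S → Fin N → Bool
  /-- matched elements of the domain -/
  xb : S → Fin N → Bool
  /-- matched elements of the range -/
  yb : S → Fin N → Bool
  /-- identity bits -/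
  db : S → Fin N → Bool
  /-- minimized names -/
  mb : S → Fin N → Bool
  /-- the concept `C₀` -/
  c0 : S → Prop
  /-- the individuals of the knowledge base -/
  nm : Fin N → Prop
  /-- the preference relation in terms of the growing names and of the shrinking names -/
  pref : (Fin N → Bool) → (Fin N → Bool) → Prop

variable {N : ℕ} {S Δ : Type}

/-- `c` is a model. -/
structure IConf (Q : Prob N S) (c : Δ → S) : Prop where
  loc : ∀ d, Q.loc (c d)
  named : ∀ a, Q.nm a → ∃! d, Q.db (c d) a = true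
  bal : ∀ P, Nonempty ({d // Q.xb (c d) P = true} ≃ {d // Q.yb (c d) P = true})
  ne : ∀ P, (∃ d, Q.ob (c d) P = true) ↔ ∃ d, Q.ib (c d) P = true

open Classical in
/-- `c'` is a model that is preferred to `c`. -/
structure JConf (Q : Prob N S) (c c' : Δ → S) : Prop where
  mv : ∀ d, Q.mv (c d) (c' d)
  loc : ∀ d, Q.loc (c' d)
  bal : ∀ P, Nonempty ({d // Q.xb (c' d) P = true} ≃ {d // Q.yb (c' d) P = true})
  ne : ∀ P, (∃ d, Q.ob (c' d) P = true) ↔ ∃ d, Q.ib (c' d) P = true
  pref : Q.pref (fun p => decide (∃ d, Q.mb (c' d) p = true ∧ Q.mb (c d) p = false))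
    (fun p => decide (∃ d, Q.mb (c d) p = true ∧ Q.mb (c' d) p = false))

/-- There is a circumscribed model in which `C₀` is non-empty (`u`: with an infinite domain). -/
def HasModel (u : Bool) (Q : Prob N S) : Prop :=
  ∃ (Δ : Type) (c : Δ → S), (u = true → Infinite Δ) ∧ IConf Q c ∧ (∃ d, Q.c0 (c d)) ∧
    ¬ ∃ c' : Δ → S, JConf Q c c'

variable [Fintype S]

/-- The conditions for the multiplicities `n s` of the states of a model. -/
structure ICard (Q : Prob N S) (n : S → Cardinal.{0}) : Prop where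
  loc : ∀ s, n s ≠ 0 → Q.loc s
  named : ∀ a, Q.nm a → ∑ s with Q.db s a = true, n s = 1
  bal : ∀ P, ∑ s with Q.xb s P = true, n s = ∑ s with Q.yb s P = true, n s
  ne : ∀ P, (∃ s, n s ≠ 0 ∧ Q.ob s P = true) ↔ ∃ s, n s ≠ 0 ∧ Q.ib s P = true

open Classical in
/-- `x s s'` is the number of elements with the state `s` in `I` and `s'` in `J`. -/
structure JX (Q : Prob N S) (n : S → Cardinal.{0}) (x : S → S → Cardinal.{0}) : Prop where
  sum : ∀ s, ∑ s', x s s' = n s
  ok : ∀ s s', x s s' ≠ 0 → Q.mv s s' ∧ Q.loc s'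
  bal : ∀ P, ∑ s, ∑ s' with Q.xb s' P = true, x s s' = ∑ s, ∑ s' with Q.yb s' P = true, x s s'
  ne : ∀ P, (∃ s s', x s s' ≠ 0 ∧ Q.ob s' P = true) ↔ ∃ s s', x s s' ≠ 0 ∧ Q.ib s' P = true
  pref : Q.pref (fun p => decide (∃ s s', x s s' ≠ 0 ∧ Q.mb s' p = true ∧ Q.mb s p = false))
    (fun p => decide (∃ s s', x s s' ≠ 0 ∧ Q.mb s p = true ∧ Q.mb s' p = false))

/-- A preferred model exists, in terms of the multiplicities. -/
def JCard (Q : Prob N S) (n : S → Cardinal.{0}) : Prop := ∃ x, JX Q n x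

/-- the cardinal of a multiplicity: `inl m` is `m`, `inr k` is `ℵ_k` -/
noncomputable def toC : ℕ ⊕ ℕ → Cardinal.{0}
  | .inl m => m
  | .inr k => Cardinal.aleph k

/-- the finite part of a multiplicity -/
def fp (m : S → ℕ ⊕ ℕ) (s : S) : ℕ := match m s with
  | .inl n => n
  | .inr _ => 0

/-- level plus one, `0` for finite multiplicities -/
def lv (m : S → ℕ ⊕ ℕ) (s : S) : ℕ := match m s with
  | .inl _ => 0
  | .inr k => k + 1

/-- the largest level (plus one) among the states with a property, `0` if there is none -/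
def topl (m : S → ℕ ⊕ ℕ) (p : S → Bool) : ℕ := (Finset.univ.filter fun s => p s = true).sup (lv m)

/-- The conditions for a model, in terms of multiplicities in `ℕ ⊕ ℕ`. -/
structure IMu (Q : Prob N S) (m : S → ℕ ⊕ ℕ) : Prop where
  loc : ∀ s, m s ≠ .inl 0 → Q.loc s
  named : ∀ a, Q.nm a → topl m (fun s => Q.db s a) = 0 ∧ ∑ s with Q.db s a = true, fp m s = 1
  bal : ∀ P, topl m (fun s => Q.xb s P) = topl m (fun s => Q.yb s P)
  bal0 : ∀ P, topl m (fun s => Q.xb s P) = 0 →
    ∑ s with Q.xb s P = true, fp m s = ∑ s with Q.yb s P = true, fp m s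
  ne : ∀ P, (∃ s, m s ≠ .inl 0 ∧ Q.ob s P = true) ↔ ∃ s, m s ≠ .inl 0 ∧ Q.ib s P = true

/-! ## The reachability problems -/

/-- vectors with flags -/
abbrev Vc (N : ℕ) : Type := (Fin N → ℤ) × (Fin 6 → Fin N → Fl)

/-- a bit as an integer -/
def bz (b : Bool) : ℤ := if b then 1 else 0

/-- The contribution of a change from `s` to `s'`.  `κ = 0`: finitely often, `κ = k + 1`: for `ℵ_k`
elements.  `ℓ P = 0` means that the two sets for `P` are finite, `ℓ P = k + 1` that they have the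
cardinality `ℵ_k`. -/
def ctr (Q : Prob N S) (ℓ : Fin N → ℕ) (κ : ℕ) (s s' : S) : Vc N :=
  (fun P => if ℓ P = 0 ∧ κ = 0 then bz (Q.xb s' P) - bz (Q.yb s' P) else 0,
    ![fun p => ⟨Q.mb s' p && !Q.mb s p⟩, fun p => ⟨Q.mb s p && !Q.mb s' p⟩,
      fun P => ⟨Q.ob s' P⟩, fun P => ⟨Q.ib s' P⟩,
      fun P => ⟨Q.xb s' P && decide (κ ≠ 0 ∧ ℓ P = κ)⟩,
      fun P => ⟨Q.yb s' P && decide (κ ≠ 0 ∧ ℓ P = κ)⟩])

/-- the change to `s'` is compatible with the cardinalities given by `ℓ` -/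
def alw (Q : Prob N S) (ℓ : Fin N → ℕ) (κ : ℕ) (s' : S) : Prop :=
  ∀ P, (Q.xb s' P = true ∨ Q.yb s' P = true) → κ ≤ ℓ P

/-- The reachability problem for the multiplicities `m` (only their infinite part matters) and the
cardinalities `ℓ`. -/
def rp (Q : Prob N S) (L : ℕ) (m : S → ℕ ⊕ ℕ) (ℓ : Fin N → ℕ) :
    RP S S (S × S × Fin (L + 1)) (Vc N) where
  ok s s' := Q.mv s s' ∧ Q.loc s'
  val s s' := ctr Q ℓ 0 s s'
  gok γ := Q.mv γ.1 γ.2.1 ∧ Q.loc γ.2.1 ∧ lv m γ.1 ≠ 0 ∧ (γ.2.2 : ℕ) ≤ lv m γ.1 ∧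
    alw Q ℓ γ.2.2 γ.2.1
  gval γ := ctr Q ℓ γ.2.2 γ.1 γ.2.1

/-- the contributions that are obligatory for the state `s` of infinite multiplicity -/
def ext (Q : Prob N S) (m : S → ℕ ⊕ ℕ) (ℓ : Fin N → ℕ) (s : S) : Set (Vc N) :=
  {v | ∃ s', Q.mv s s' ∧ Q.loc s' ∧ alw Q ℓ (lv m s) s' ∧ v = ctr Q ℓ (lv m s) s s'}

/-- the flags describe a preferred model -/
structure FinalFl (Q : Prob N S) (ℓ : Fin N → ℕ) (f : Fin 6 → Fin N → Fl) : Prop where
  pref : Q.pref (fun p => (f 0 p).b) (fun p => (f 1 p).b)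
  ne : ∀ P, (f 2 P).b = (f 3 P).b
  hit : ∀ P, ℓ P ≠ 0 → (f 4 P).b = true ∧ (f 5 P).b = true

/-- The goal vectors. -/
def goal (Q : Prob N S) (m : S → ℕ ⊕ ℕ) (ℓ : Fin N → ℕ) : Set (Vc N) :=
  {u | u.1 = 0 ∧ ∃ e : S → Vc N, (∀ s, lv m s ≠ 0 → e s ∈ ext Q m ℓ s) ∧
    FinalFl Q ℓ (u + ∑ s with lv m s ≠ 0, e s).2}

/-- There is a preferred model, in terms of reachability. -/
def JReach (Q : Prob N S) (L : ℕ) (m : S → ℕ ⊕ ℕ) : Prop :=
  ∃ ℓ : Fin N → Fin (L + 1), ∃ u ∈ (rp Q L m fun P => (ℓ P : ℕ)).Reach (fp m),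
    u ∈ goal Q m fun P => (ℓ P : ℕ)

end Pool.Agent.Lib.MP_bb9e9d_lc
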