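import Pool.Agent.Lib.MP_bb9e9d_lc.Abs.A2
import Pool.Agent.Lib.MP_bb9e9d_lc.Abs.A4
import Pool.Agent.Lib.MP_bb9e9d_lc.Abs.A7
import Pool.Agent.Lib.MP_bb9e9d_lc.Abs.A8
import Pool.Agent.Lib.MP_bb9e9d_lc.Abs.A9
import Pool.Agent.Lib.MP_bb9e9d_lc.Core.Cut

/-! # Abstract circumscription problems: the main equivalence -/

namespace Pool.Agent.Lib.MP_bb9e9d_lc

open Cardinal

variable {N : ℕ} {S : Type} [Fintype S]

/-- Proof: `aw_of_jcard`, `jcard_of_aw`, `reach_of_aw`, `aw_of_reach`. -/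
theorem jcard_iff (Q : Prob N S) (L : ℕ) (m : S → ℕ ⊕ ℕ) (hL : ∀ s, lv m s ≤ L) :
    (JCard Q fun s => toC (m s)) ↔ JReach Q L m := by
  constructor
  · intro h
    obtain ⟨ℓ, a, W, hℓ, hAW⟩ := aw_of_jcard Q L m hL h
    refine ⟨fun P => ⟨ℓ P, Nat.lt_succ_of_le (hℓ P)⟩, ?_⟩
    exact reach_of_aw Q L m hL hAW
  · rintro ⟨ℓ, hu⟩
    obtain ⟨a, W, h⟩ := aw_of_reach Q L m hu
    exact jcard_of_aw Q m h

/-- Only the infinite part of `m` matters.  Proof: the definitions use only `lv m`. -/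
theorem rp_congr (Q : Prob N S) (L : ℕ) {m m' : S → ℕ ⊕ ℕ} (h : lv m = lv m') (ℓ : Fin N → ℕ) :
    rp Q L m ℓ = rp Q L m' ℓ ∧ goal Q m ℓ = goal Q m' ℓ := by
  constructor
  · unfold rp
    rw [h]
  · unfold goal ext
    rw [h]

theorem rp_small (Q : Prob N S) (L : ℕ) (m : S → ℕ ⊕ ℕ) (ℓ : Fin N → ℕ) : (rp Q L m ℓ).Small := by
  have key : ∀ (κ : ℕ) (s s' : S) (i : Fin N), |(ctr Q ℓ κ s s').1 i| ≤ 1 := by
    intro κ s s' i
    change |(if ℓ i = 0 ∧ κ = 0 then bz (Q.xb s' i) - bz (Q.yb s' i) else 0 : ℤ)| ≤ 1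
    split_ifs
    · cases Q.xb s' i <;> cases Q.yb s' i <;> simp [bz]
    · simp
  exact ⟨fun t o i => key _ _ _ i, fun γ i => key _ _ _ i⟩

/-- the bound for the finite multiplicities -/
def bnd (N : ℕ) (S : Type) [Fintype S] : ℕ :=
  bound S S (S × S × Fin (Fintype.card S + 1)) (Fin N) (Fin N) (Fin 6 → Fin N → Fl)
    (Fin N → Fin (Fintype.card S + 1))

/-- the certificate conditions -/
structure Cert (u : Bool) (Q : Prob N S) (L : ℕ) (m : S → ℕ ⊕ ℕ) : Prop where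
  lv : ∀ s, lv m s ≤ L
  inf : u = true → ∃ s, Pool.Agent.Lib.MP_bb9e9d_lc.lv m s ≠ 0
  imu : IMu Q m
  c0 : ∃ s, m s ≠ .inl 0 ∧ Q.c0 s
  none : ¬ JReach Q L m

/-- Proof: `jcard_iff`, `icard_iff`, `toC_ne_zero`, `toC_inf`, `hasModel_iff_card` with
`n s = toC (m s)`. -/
theorem hasModel_of_cert {u : Bool} {Q : Prob N S} {L : ℕ} {m : S → ℕ ⊕ ℕ} (h : Cert u Q L m) :
    HasModel u Q := by
  rw [hasModel_iff_card]
  refine ⟨fun s => toC (m s), ?_, (icard_iff Q m).2 h.imu, ?_, ?_⟩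
  · intro hu
    obtain ⟨s, hs⟩ := h.inf hu
    exact ⟨s, (toC_inf m s).2 hs⟩
  · obtain ⟨s, hs, hc⟩ := h.c0
    exact ⟨s, (toC_ne_zero _).2 hs, hc⟩
  · intro hJ
    exact h.none ((jcard_iff Q L m h.lv).1 hJ)

/-- Proof: `hasModel_iff_card`, `exists_collapse`: `ICard Q (g ∘ n)` by `ICard.map`, and
`¬ JCard Q (g ∘ n)` because `JCard.map` with `h` would give `JCard Q n`. -/
theorem cert_of_hasModel {u : Bool} {Q : Prob N S} (h : HasModel u Q) :
    ∃ m : S → ℕ ⊕ ℕ, Cert u Q (Fintype.card S) m := by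
  rw [hasModel_iff_card] at h
  obtain ⟨n, hinf, hI, ⟨s0, hs0, hc0⟩, hJ⟩ := h
  obtain ⟨g, g', hg, hg', hgg, m, hm, hlv⟩ := exists_collapse n
  have hfun : (fun s => toC (m s)) = fun s => g (n s) := funext hm
  refine ⟨m, ⟨hlv, ?_, ?_, ?_, ?_⟩⟩
  · intro hu
    obtain ⟨s, hs⟩ := hinf hu
    refine ⟨s, (toC_inf m s).1 ?_⟩
    rw [hm s]
    exact (hg.inf_iff _).2 hs
  · apply (icard_iff Q m).1
    rw [hfun]
    exact ICard.map hg hI
  · refine ⟨s0, (toC_ne_zero _).1 ?_, hc0⟩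
    rw [hm s0]
    exact (hg.ne_zero _).2 hs0
  · intro hR
    have h1 := (jcard_iff Q (Fintype.card S) m hlv).2 hR
    rw [hfun] at h1
    have h2 := JCard.map hg' h1
    have h3 : (fun s => g' (g (n s))) = n := funext hgg
    exact hJ (by rw [h3] at h2; exact h2)

/-- Proof: `small_model` for `T = O = S`, `κ = Fin N`, `Λ = Fin N → Fin (card S + 1)`, `R ℓ =
rp Q (card S) m ℓ`, `iv s P = bz (xb s P) - bz (yb s P)` if `topl m (xb · P) = 0` and `0` otherwise,
and `n = fp m`.  Let `m' s = inl (n' s)` if `lv m s = 0`, otherwise `m s`; `lv m' = lv m`,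
`fp m' = n'` (if `lv m s ≠ 0` then `n' s ≤ fp m s = 0`), `m' s ≠ inl 0 ↔ m s ≠ inl 0`, and for the
states with `db s a`: `fp m s ≤ 1`, so `fp m' s = fp m s`. -/
theorem small_cert {u : Bool} {Q : Prob N S} {m : S → ℕ ⊕ ℕ}
    (h : Cert u Q (Fintype.card S) m) :
    ∃ m' : S → ℕ ⊕ ℕ, Cert u Q (Fintype.card S) m' ∧ ∀ s, fp m' s ≤ bnd N S := by
  classical
  have hsum : ∀ (k : S → ℕ) (P : Fin N), ∑ s, (k s : ℤ) * (bz (Q.xb s P) - bz (Q.yb s P)) =
      ((∑ s with Q.xb s P = true, k s : ℕ) : ℤ) - ((∑ s with Q.yb s P = true, k s : ℕ) : ℤ) := by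
    intro k P
    push_cast
    rw [Finset.sum_filter, Finset.sum_filter, ← Finset.sum_sub_distrib]
    refine Finset.sum_congr rfl fun s _ => ?_
    cases Q.xb s P <;> cases Q.yb s P <;> simp [bz]
  have hgood : Good (fun ℓ : Fin N → Fin (Fintype.card S + 1) =>
      rp Q (Fintype.card S) m fun P => (ℓ P : ℕ)) (fun ℓ => goal Q m fun P => (ℓ P : ℕ))
      (fun s P => if topl m (fun s => Q.xb s P) = 0 then bz (Q.xb s P) - bz (Q.yb s P) else 0)
      (fp m) := by
    refine ⟨fun P => ?_, fun ℓ u hu hg => h.none ⟨ℓ, u, hu, hg⟩⟩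
    by_cases h0 : topl m (fun s => Q.xb s P) = 0
    · simp only [h0, if_true]
      rw [hsum, h.imu.bal0 P h0, sub_self]
    · simp only [h0, if_false, mul_zero, Finset.sum_const_zero]
  obtain ⟨n', hn', hle, hne, hbd⟩ := small_model _ (fun ℓ => rp_small Q _ m _) _
    (fun ℓ u hu => hu.1) _ (by
      intro s P
      split_ifs
      · cases Q.xb s P <;> cases Q.yb s P <;> simp [bz]
      · simp) _ hgood
  have hfp0 : ∀ s, lv m s ≠ 0 → fp m s = 0 := by
    intro s hs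
    unfold lv at hs
    unfold fp
    cases hms : m s with
    | inl a => simp [hms] at hs
    | inr k => rfl
  obtain ⟨m', hm'⟩ : ∃ m' : S → ℕ ⊕ ℕ, m' = fun s => if lv m s = 0 then .inl (n' s) else m s :=
    ⟨_, rfl⟩
  have hm1 : ∀ s, lv m s = 0 → m' s = .inl (n' s) := by
    intro s hs
    rw [hm']
    simp [hs]
  have hm2 : ∀ s, lv m s ≠ 0 → m' s = m s := by
    intro s hs
    rw [hm']
    simp [hs]
  have hlv : lv m' = lv m := by
    funext s
    by_cases hs : lv m s = 0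
    · rw [hs]
      unfold lv
      rw [hm1 s hs]
    · unfold lv
      rw [hm2 s hs]
  have hfp : fp m' = n' := by
    funext s
    by_cases hs : lv m s = 0
    · unfold fp
      rw [hm1 s hs]
    · have h1 : fp m' s = fp m s := by
        unfold fp
        rw [hm2 s hs]
      have h2 := hle s
      rw [h1]
      rw [hfp0 s hs] at h2 ⊢
      omega
  have hsupp : ∀ s, m' s ≠ .inl 0 ↔ m s ≠ .inl 0 := by
    intro s
    by_cases hs : lv m s = 0
    · rw [hm1 s hs]
      cases hms : m s with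
      | inl a =>
        have hfa : fp m s = a := by
          unfold fp
          rw [hms]
        have h1 := hle s
        have h2 := hne s
        rw [hfa] at h1 h2
        simp only [ne_eq, Sum.inl.injEq]
        constructor
        · intro h3 h4
          omega
        · intro h3
          exact h2 h3
      | inr k =>
        exfalso
        unfold lv at hs
        rw [hms] at hs
        simp at hs
    · rw [hm2 s hs]
  have htop : ∀ p, topl m' p = topl m p := by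
    intro p
    unfold topl
    rw [hlv]
  refine ⟨m', ⟨?_, ?_, ⟨?_, ?_, ?_, ?_, ?_⟩, ?_, ?_⟩, ?_⟩
  · intro s
    rw [hlv]
    exact h.lv s
  · intro hu
    rw [hlv]
    exact h.inf hu
  · intro s hs
    exact h.imu.loc s ((hsupp s).1 hs)
  · intro a ha
    obtain ⟨h1, h2⟩ := h.imu.named a ha
    refine ⟨by rw [htop]; exact h1, ?_⟩
    rw [hfp, ← h2]
    refine Finset.sum_congr rfl fun s hs => ?_
    have h3 : fp m s ≤ 1 := by
      rw [← h2]
      exact Finset.single_le_sum (f := fp m) (fun _ _ => Nat.zero_le _) hs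
    have h4 := hle s
    have h5 := hne s
    rcases Nat.eq_zero_or_pos (fp m s) with h6 | h6
    · omega
    · have h7 := h5 (by omega)
      omega
  · intro P
    rw [htop, htop]
    exact h.imu.bal P
  · intro P hP
    rw [htop] at hP
    have h1 := hn'.bal P
    simp only [hP, if_true] at h1
    rw [hsum] at h1
    rw [hfp]
    have h2 := sub_eq_zero.1 h1
    exact_mod_cast h2
  · intro P
    simp only [hsupp]
    exact h.imu.ne P
  · obtain ⟨s, hs, hc⟩ := h.c0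
    exact ⟨s, (hsupp s).2 hs, hc⟩
  · rintro ⟨ℓ, u, hu, hg⟩
    obtain ⟨e1, e2⟩ := rp_congr Q (Fintype.card S) hlv (fun P => (ℓ P : ℕ))
    rw [e1, hfp] at hu
    rw [e2] at hg
    exact hn'.none ℓ u hu hg
  · intro s
    rw [hfp]
    exact hbd s

end Pool.Agent.Lib.MP_bb9e9d_lc
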